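import Pool.Agent.Q9.FJT.Sum

/-!
# Extensions whose kernel is a product of groups permuted by the group: passage to quotients
-/

set_option autoImplicit false

namespace Q9.FJT

open Pool.Agent.Y110.FJ (ClosedE Realized)
open Pool.Agent.Y462.SS (Closed Wr)

variable {C : ∀ (G : Type) [Group G], Prop}

/-- the quotient by the intersection of the kernels -/
theorem sum_quot (hC : ClosedE C) (G X : Type) [Group G] [Nonempty X] (a : G →* Equiv.Perm X)
    (M : Subgroup G) [M.Normal] (K : X → Subgroup G) (hQ : C (G ⧸ M)) (hKM : ∀ x, K x ≤ M)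
    (h2 : ∀ g x k, k ∈ K x → g * k * g⁻¹ ∈ K (a g x))
    (h3 : ∀ m ∈ M, a m = 1)
    (h4 : ∀ m ∈ M, {x | m ∉ K x}.Finite)
    (h6 : ∀ x g, a g x = x → ∃ (L : Type) (_ : Group L) (φ : ↥(M ⊔ Subgroup.zpowers g) →* L),
      C L ∧ ∀ z, φ z = 1 ↔ (z : G) ∈ K x)
    (I : Subgroup G) [I.Normal] (hI : ∀ g, g ∈ I ↔ ∀ x, g ∈ K x) : C (G ⧸ I) := by
  obtain ⟨x0⟩ := ‹Nonempty X›
  have hIK : ∀ x, I ≤ K x := fun x g hg => (hI g).1 hg x
  have hIM : I ≤ M := (hIK x0).trans (hKM x0)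
  let π : G →* G ⧸ I := QuotientGroup.mk' I
  have hπs : Function.Surjective π := QuotientGroup.mk'_surjective I
  have hπ : ∀ g, π g = 1 ↔ g ∈ I := fun g => QuotientGroup.eq_one_iff g
  have hmem : ∀ (S : Subgroup G), I ≤ S → ∀ g, π g ∈ S.map π ↔ g ∈ S := by
    intro S hS g
    constructor
    · rintro ⟨s, hs, hsg⟩
      have h1 : π (s⁻¹ * g) = 1 := by rw [map_mul, map_inv, hsg, inv_mul_cancel]
      have h7 := S.mul_mem hs (hS ((hπ _).1 h1))
      rwa [mul_inv_cancel_left] at h7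
    · exact fun h => ⟨g, h, rfl⟩
  let b : G ⧸ I →* Equiv.Perm X := QuotientGroup.lift I a fun g hg => h3 g (hIM hg)
  have hb : ∀ g, b (π g) = a g := fun g => rfl
  refine sum_mem hC (G ⧸ I) X b (M.map π) (fun x => (K x).map π) ?_ ?_ ?_ ?_ ?_
  · exact hC.base.of_injective _ _ (QuotientGroup.quotientQuotientEquivQuotient I M hIM).toMonoidHom
      (QuotientGroup.quotientQuotientEquivQuotient I M hIM).injective hQ
  · intro g x k hk
    obtain ⟨g, rfl⟩ := hπs g
    obtain ⟨k, hk, rfl⟩ := hk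
    rw [hb]
    exact ⟨g * k * g⁻¹, h2 g x k hk, by rw [map_mul, map_mul, map_inv]⟩
  · rintro _ ⟨m, hm, rfl⟩
    refine (h4 m hm).subset fun x hx hne => hx ?_
    exact ⟨m, hne, rfl⟩
  · rintro _ ⟨m, hm, rfl⟩ h
    exact (hπ m).2 ((hI m).2 fun x => (hmem _ (hIK x) m).1 (h x))
  · intro x g hg
    obtain ⟨g, rfl⟩ := hπs g
    obtain ⟨L, _, φ, hL, hφ⟩ := h6 x g hg
    let S : Subgroup G := M ⊔ Subgroup.zpowers g
    have hSmap : M.map π ⊔ Subgroup.zpowers (π g) ≤ S.map π := by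
      rw [sup_le_iff, Subgroup.zpowers_le]
      exact ⟨Subgroup.map_mono le_sup_left, ⟨g, (le_sup_right : Subgroup.zpowers g ≤ _)
        (Subgroup.mem_zpowers g), rfl⟩⟩
    have hex : ∀ z : ↥(M.map π ⊔ Subgroup.zpowers (π g)), ∃ s : S, π s = z := by
      intro z
      obtain ⟨s, hs, h⟩ := hSmap z.2
      exact ⟨⟨s, hs⟩, h⟩
    choose s hs using hex
    have huniq : ∀ u v : S, π u = π v → φ u = φ v := by
      intro u v huv
      have h1 : π ((u⁻¹ * v : S) : G) = 1 := by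
        rw [Subgroup.coe_mul, Subgroup.coe_inv, map_mul, map_inv, huv, inv_mul_cancel]
      have h7 := (hφ (u⁻¹ * v)).2 (hIK x ((hπ _).1 h1))
      rw [map_mul, map_inv] at h7
      exact inv_mul_eq_one.1 h7
    refine ⟨L, inferInstance, MonoidHom.mk' (fun z => φ (s z)) ?_, hL, ?_⟩
    · intro z w
      rw [← map_mul]
      apply huniq
      rw [hs, Subgroup.coe_mul, Subgroup.coe_mul, map_mul, hs, hs]
    · intro z
      show φ (s z) = 1 ↔ _
      rw [hφ, ← hs z, hmem _ (hIK x)]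

end Q9.FJT
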