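import Pool.Agent.Q9.FJT.Ret
import Pool.Agent.Q9.FJT.SumQ

/-!
# Groups acting on trees with a homomorphism which is injective on the edge stabilizers
-/

set_option autoImplicit false

namespace Q9.FJT

open Pool.Agent.Y110.FJ (ClosedE permAut)
open Pool.Agent.Y462.SS (Closed)
open Pool.Agent.Q293.HP SimpleGraph

variable {C : ∀ (G : Type) [Group G], Prop}

section

variable {G Q V : Type} [Group G] [Group Q] [MulAction G V] {T : SimpleGraph V} (ρ : G →* Q)

/-- the homomorphism given by the words of the paths -/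
noncomputable def pathHom (hT : T.IsTree)
    (hadj : ∀ (g : G) (v w : V), T.Adj v w → T.Adj (g • v) (g • w)) (v : V) :
    G →* FreeGroup (Ind T ρ) ⋊[permAut (Ind T ρ) Q] Q :=
  MonoidHom.mk' (fun g => ⟨wd ρ (tp hT v (g • v)), ρ g⟩) (by
    intro g h
    refine SemidirectProduct.ext ?_ (map_mul ρ g h)
    rw [SemidirectProduct.mul_left]
    exact cocycle ρ hT hadj v g h)

theorem mem_ker_pathHom (hT : T.IsTree)
    (hadj : ∀ (g : G) (v w : V), T.Adj v w → T.Adj (g • v) (g • w)) (v : V) (g : G) :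
    g ∈ (pathHom ρ hT hadj v).ker ↔ wd ρ (tp hT v (g • v)) = 1 ∧ ρ g = 1 := by
  rw [MonoidHom.mem_ker, SemidirectProduct.ext_iff]
  exact Iff.rfl

theorem mem_pathHom (hC : ClosedE C) (hQ : C Q) :
    C (FreeGroup (Ind T ρ) ⋊[permAut (Ind T ρ) Q] Q) :=
  Pool.Agent.Y961.FJ.t_perm Pool.Agent.Y529.FJ.t_ext C hC _ _ hQ

/-- the classical case -/
theorem tree_vert (hC : ClosedE C) (hQ : C Q) (hT : T.IsTree)
    (hadj : ∀ (g : G) (v w : V), T.Adj v w → T.Adj (g • v) (g • w))
    (hinv : ∀ (g : G) (v w : V), T.Adj v w → ¬ (g • v = w ∧ g • w = v))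
    (hρ : ∀ (g : G) (v : V), g • v = v → ρ g = 1 → g = 1) : C G := by
  obtain ⟨v⟩ := hT.connected.nonempty
  refine hC.base.of_injective _ _ (pathHom ρ hT hadj v) ?_ (mem_pathHom ρ hC hQ)
  rw [injective_iff_map_eq_one]
  intro g hg
  obtain ⟨h1, h2⟩ := (mem_ker_pathHom ρ hT hadj v g).1 hg
  exact hρ g v (wd_ne_one ρ hinv hρ _ (tp_isPath hT v (g • v)) h1).symm h2

end

section Main

variable {G Q V : Type} [Group G] [Group Q] [MulAction G V] {T : SimpleGraph V} (ρ : G →* Q)

/-- the subgroup generated by the vertex stabilizers of the kernel -/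
def MM (G Q V : Type) [Group G] [Group Q] [MulAction G V] (ρ : G →* Q) : Subgroup G :=
  Subgroup.closure {n : G | ρ n = 1 ∧ ∃ u : V, n • u = u}

instance : (MM G Q V ρ).Normal := by
  constructor
  intro m hm g
  have h1 : g * m * g⁻¹ ∈ (MM G Q V ρ).map (MulAut.conj g).toMonoidHom := ⟨m, hm, rfl⟩
  rw [MM, MonoidHom.map_closure] at h1
  refine Subgroup.closure_mono ?_ h1
  rintro _ ⟨n, ⟨hn, u, hu⟩, rfl⟩
  refine ⟨?_, g • u, ?_⟩
  · show ρ (g * n * g⁻¹) = 1
    rw [map_mul, map_mul, hn, mul_one, map_inv, mul_inv_cancel]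
  · show (g * n * g⁻¹) • g • u = g • u
    rw [smul_smul, inv_mul_cancel_right, mul_smul, hu]

theorem mem_MM {n : G} {u : V} (h : ρ n = 1) (hu : n • u = u) : n ∈ MM G Q V ρ :=
  Subgroup.subset_closure ⟨h, u, hu⟩

theorem quot_MM (hC : ClosedE C) (hQ : C Q) (hT : T.IsTree)
    (hadj : ∀ (g : G) (v w : V), T.Adj v w → T.Adj (g • v) (g • w))
    (hinv : ∀ (g : G) (v w : V), T.Adj v w → ¬ (g • v = w ∧ g • w = v)) :
    C (G ⧸ MM G Q V ρ) := by
  obtain ⟨v⟩ := hT.connected.nonempty
  have h1 : (pathHom ρ hT hadj v).ker = MM G Q V ρ := by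
    apply le_antisymm
    · intro g hg
      obtain ⟨h1, h2⟩ := (mem_ker_pathHom ρ hT hadj v g).1 hg
      obtain ⟨m, hm, h3⟩ := orbit_ind ρ hT hadj hinv v {u | ∃ m ∈ MM G Q V ρ, m • v = u}
        ⟨1, one_mem _, one_smul _ _⟩ (by
          rintro y γ hγ hy _ _ ⟨m, hm, rfl⟩
          exact ⟨γ * m, mul_mem (mem_MM ρ hγ hy) hm, by rw [mul_smul]⟩) _ h1
      have h4 : m⁻¹ * g ∈ MM G Q V ρ := by
        refine mem_MM ρ (u := v) ?_ ?_
        · rw [map_mul, map_inv, h2, (wd_stab ρ hT hadj v m hm).1, inv_one, one_mul]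
        · rw [mul_smul, ← h3, inv_smul_smul]
      have h5 := mul_mem hm h4
      rwa [mul_inv_cancel_left] at h5
    · intro m hm
      obtain ⟨h2, h3⟩ := wd_stab ρ hT hadj v m hm
      exact (mem_ker_pathHom ρ hT hadj v m).2 ⟨h3, h2⟩
  have h2 : C (G ⧸ (pathHom ρ hT hadj v).ker) :=
    hC.base.of_injective _ _ (QuotientGroup.kerLift _) (QuotientGroup.kerLift_injective _)
      (mem_pathHom ρ hC hQ)
  exact hC.base.of_injective _ _ (QuotientGroup.quotientMulEquivOfEq h1.symm).toMonoidHom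
    (QuotientGroup.quotientMulEquivOfEq h1.symm).injective h2

/-- the action on the orbits of a normal subgroup -/
@[reducible] def orbAct (G V : Type) [Group G] [MulAction G V] (M : Subgroup G) [M.Normal] :
    MulAction G (Quotient (MulAction.orbitRel M V)) where
  smul g := Quotient.map (fun v => g • v) (by
    rintro a b ⟨m, hm⟩
    refine ⟨⟨g * m * g⁻¹, Subgroup.Normal.conj_mem inferInstance _ m.2 g⟩, ?_⟩
    show (g * m * g⁻¹) • g • b = g • a
    rw [smul_smul, inv_mul_cancel_right, mul_smul]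
    congr 1)
  one_smul x := by
    induction x using Quotient.inductionOn with
    | h v => exact congrArg (Quotient.mk _) (one_smul G v)
  mul_smul g h x := by
    induction x using Quotient.inductionOn with
    | h v => exact congrArg (Quotient.mk _) (mul_smul g h v)

/-- **main theorem**: a homomorphism injective on the edge stabilizers suffices -/
theorem tree_edge (hC : ClosedE C) (hQ : C Q) (hT : T.IsTree)
    (hadj : ∀ (g : G) (v w : V), T.Adj v w → T.Adj (g • v) (g • w))
    (hinv : ∀ (g : G) (v w : V), T.Adj v w → ¬ (g • v = w ∧ g • w = v))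
    (hρ : ∀ (g : G) (v w : V), T.Adj v w → g • v = v → g • w = w → ρ g = 1 → g = 1)
    (hst : ∀ v : V, C (MulAction.stabilizer G v)) : C G := by
  classical
  obtain ⟨M, hMdef⟩ : ∃ M : Subgroup G, M = MM G Q V ρ := ⟨_, rfl⟩
  have hMn : M.Normal := by rw [hMdef]; infer_instance
  have hQM : C (G ⧸ M) := by
    subst hMdef
    exact quot_MM ρ hC hQ hT hadj hinv
  have hMmem : ∀ {n : G} {u : V}, ρ n = 1 → n • u = u → n ∈ M := by
    intro n u h hu
    rw [hMdef]
    exact mem_MM ρ h hu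
  have hMρ : ∀ m ∈ M, ρ m = 1 := by
    intro m hm
    obtain ⟨v⟩ := hT.connected.nonempty
    rw [hMdef] at hm
    exact (wd_stab ρ hT hadj v m hm).1
  have hMw : ∀ m ∈ M, ∀ v : V, wd ρ (tp hT v (m • v)) = 1 := by
    intro m hm v
    rw [hMdef] at hm
    exact (wd_stab ρ hT hadj v m hm).2
  let _ : MulAction G (Quotient (MulAction.orbitRel M V)) := orbAct G V M
  let X : Type := Quotient (MulAction.orbitRel M V)
  let mk : V → X := Quotient.mk (MulAction.orbitRel M V)
  have hmk : ∀ (g : G) (v : V), g • mk v = mk (g • v) := fun _ _ => rfl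
  have hmk_eq : ∀ v w : V, mk v = mk w ↔ ∃ m ∈ M, m • w = v := by
    intro v w
    have h1 : mk v = mk w ↔ (MulAction.orbitRel M V) v w := Quotient.eq
    rw [h1]
    constructor
    · rintro ⟨m, hm⟩
      exact ⟨m, m.2, hm⟩
    · rintro ⟨m, hm, h⟩
      exact ⟨⟨m, hm⟩, h⟩
  let gen : X → Set G := fun x => {n | ρ n = 1 ∧ ∃ u : V, n • u = u ∧ mk u ≠ x}
  let K : X → Subgroup G := fun x => Subgroup.closure (gen x)
  have hKM : ∀ x, K x ≤ M := by
    intro x
    refine (Subgroup.closure_le _).2 ?_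
    rintro n ⟨hn, u, hu, _⟩
    exact hMmem hn hu
  have h2 : ∀ g x k, k ∈ K x → g * k * g⁻¹ ∈ K (g • x) := by
    intro g x k hk
    have h1 : g * k * g⁻¹ ∈ (K x).map (MulAut.conj g).toMonoidHom := ⟨k, hk, rfl⟩
    have h3 : (K x).map (MulAut.conj g).toMonoidHom =
        Subgroup.closure ((MulAut.conj g).toMonoidHom '' gen x) := MonoidHom.map_closure _ _
    rw [h3] at h1
    refine Subgroup.closure_mono ?_ h1
    rintro _ ⟨n, ⟨hn, u, hu, hux⟩, rfl⟩
    refine ⟨?_, g • u, ?_, ?_⟩
    · show ρ (g * n * g⁻¹) = 1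
      rw [map_mul, map_mul, hn, mul_one, map_inv, mul_inv_cancel]
    · show (g * n * g⁻¹) • g • u = g • u
      rw [smul_smul, inv_mul_cancel_right, mul_smul, hu]
    · intro h
      apply hux
      rw [← hmk] at h
      exact smul_left_cancel g h
  have h3 : ∀ m ∈ M, ∀ x : X, m • x = x := by
    intro m hm x
    induction x using Quotient.inductionOn with
    | h v => exact (hmk_eq _ _).2 ⟨m, hm, rfl⟩
  have h4 : ∀ m ∈ M, {x | m ∉ K x}.Finite := by
    intro m hm
    rw [hMdef] at hm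
    induction hm using Subgroup.closure_induction with
    | mem n hn =>
      obtain ⟨hn, u, hu⟩ := hn
      refine (Set.finite_singleton (mk u)).subset ?_
      intro x hx
      by_contra hne
      exact hx (Subgroup.subset_closure ⟨hn, u, hu, fun h => hne h.symm⟩)
    | one =>
      refine Set.finite_empty.subset ?_
      intro x hx
      exact hx (one_mem _)
    | mul m n _ _ hm hn =>
      refine (hm.union hn).subset ?_
      intro x hx
      by_contra hne
      rw [Set.mem_union, not_or, Set.mem_ofPred_eq, Set.mem_ofPred_eq, not_not, not_not] at hne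
      exact hx (mul_mem hne.1 hne.2)
    | inv m _ hm =>
      refine hm.subset ?_
      intro x hx hne
      exact hx (inv_mem hne)
  -- the retraction
  have h5 : ∀ (v : V) (k : G), k ∈ K (mk v) → k • v = v → k = 1 := by
    intro v k hk hkv
    obtain ⟨p, hp1, hp2⟩ := exists_ret hT hadj M
      (fun m hm a b hab ha hb => hρ m a b hab ha hb (hMρ m hm)) v
    have key : ∀ k ∈ K (mk v), ∃ hk : k ∈ M, p ⟨k, hk⟩ = 1 := by
      intro k hk
      induction hk using Subgroup.closure_induction with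
      | mem n hn =>
        obtain ⟨hn, u, hu, hne⟩ := hn
        refine ⟨hMmem hn hu, hp2 _ u hu ?_⟩
        intro m hm hmu
        exact hne ((hmk_eq _ _).2 ⟨m, hm, hmu⟩)
      | one => exact ⟨one_mem _, map_one p⟩
      | mul m n _ _ hm hn =>
        obtain ⟨hm1, hm2⟩ := hm
        obtain ⟨hn1, hn2⟩ := hn
        refine ⟨mul_mem hm1 hn1, ?_⟩
        have h7 := map_mul p ⟨m, hm1⟩ ⟨n, hn1⟩
        rw [hm2, hn2, one_mul] at h7
        exact h7
      | inv m _ hm =>
        obtain ⟨hm1, hm2⟩ := hm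
        refine ⟨inv_mem hm1, ?_⟩
        have h7 := map_inv p ⟨m, hm1⟩
        rw [hm2, inv_one] at h7
        exact h7
    obtain ⟨hk1, hk2⟩ := key k hk
    have h7 := hp1 ⟨k, hk1⟩ hkv
    rw [hk2] at h7
    exact h7.symm
  -- the complement
  have h6 : ∀ (v : V) (z : G), z • mk v = mk v → ∃ s : G, s • v = v ∧ z * s⁻¹ ∈ K (mk v) := by
    intro v z hz
    rw [hmk] at hz
    obtain ⟨m, hm, hmv⟩ := (hmk_eq _ _).1 hz
    have h7 : ∀ u, wd ρ (tp hT v u) = 1 → u ∈ {u | ∃ k ∈ K (mk v), k • v = u} := by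
      refine orbit_ind ρ hT hadj hinv v _ ⟨1, one_mem _, one_smul _ _⟩ ?_
      rintro y γ hγ hy hyA _ ⟨k, hk, rfl⟩
      by_cases hyv : mk y = mk v
      · obtain ⟨m', hm', rfl⟩ := (hmk_eq _ _).1 hyv
        obtain ⟨k', hk', hk'v⟩ := hyA (hMw m' hm' v)
        rw [← hk'v] at hy
        have h8 : (k'⁻¹ * γ * k') • v = v := by
          rw [mul_smul, mul_smul, hy, inv_smul_smul]
        have h9 : (k'⁻¹ * γ * k') • mk v = mk v := by rw [hmk, h8]
        have h10 := h2 (k'⁻¹ * γ * k') (mk v) (k'⁻¹ * k) (mul_mem (inv_mem hk') hk)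
        rw [h9] at h10
        refine ⟨k' * ((k'⁻¹ * γ * k') * (k'⁻¹ * k) * (k'⁻¹ * γ * k')⁻¹), mul_mem hk' h10, ?_⟩
        have h11 : (k'⁻¹ * γ * k')⁻¹ • v = v := by rw [inv_smul_eq_iff, h8]
        rw [← mul_assoc, mul_smul, h11, smul_smul]
        congr 1
        group
      · refine ⟨γ * k, mul_mem (Subgroup.subset_closure ⟨hγ, y, hy, hyv⟩) hk, by rw [mul_smul]⟩
    obtain ⟨k, hk, hkv⟩ := h7 _ (hMw m hm v)
    refine ⟨k⁻¹ * z, ?_, ?_⟩
    · rw [mul_smul, ← hmv, ← hkv, inv_smul_smul]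
    · rw [mul_inv_rev, inv_inv, mul_inv_cancel_left]
      exact hk
  obtain ⟨v0⟩ := hT.connected.nonempty
  have hne : Nonempty X := ⟨mk v0⟩
  obtain ⟨I, hIdef⟩ : ∃ I : Subgroup G, ∀ g, g ∈ I ↔ ∀ x, g ∈ K x :=
    ⟨⨅ x, K x, fun g => Subgroup.mem_iInf⟩
  have hIn : I.Normal := by
    constructor
    intro n hn g
    rw [hIdef] at hn ⊢
    intro x
    have h7 := h2 g (g⁻¹ • x) n (hn _)
    rwa [smul_inv_smul] at h7
  have hCI : C (G ⧸ I) := by
    refine sum_quot hC G X (MulAction.toPermHom G X) M K hQM hKM (fun g x k hk => h2 g x k hk)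
      ?_ h4 ?_ I hIdef
    · intro m hm
      ext x
      exact h3 m hm x
    · intro x g hg
      induction x using Quotient.inductionOn with
      | h v =>
        have hle : M ⊔ Subgroup.zpowers g ≤ MulAction.stabilizer G (mk v) := by
          rw [sup_le_iff, Subgroup.zpowers_le]
          exact ⟨fun m hm => h3 m hm _, hg⟩
        choose s hs1 hs2 using fun z : ↥(M ⊔ Subgroup.zpowers g) => h6 v z (hle z.2)
        have huniq : ∀ (z a b : G), a • v = v → b • v = v → z * a⁻¹ ∈ K (mk v) →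
            z * b⁻¹ ∈ K (mk v) → a = b := by
          intro z a b ha hb hza hzb
          have h7 := mul_mem (inv_mem hza) hzb
          have h8 : (z * a⁻¹)⁻¹ * (z * b⁻¹) = a * b⁻¹ := by group
          rw [h8] at h7
          have hb' : b⁻¹ • v = v := by rw [inv_smul_eq_iff, hb]
          exact mul_inv_eq_one.1 (h5 v _ h7 (by rw [mul_smul, hb', ha]))
        refine ⟨MulAction.stabilizer G v, inferInstance,
          MonoidHom.mk' (fun z => ⟨s z, hs1 z⟩) ?_, hst v, ?_⟩
        · intro z w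
          apply Subtype.ext
          show s (z * w) = s z * s w
          refine huniq (z * w : G) _ _ (hs1 _) (by rw [mul_smul, hs1, hs1]) (hs2 (z * w)) ?_
          have h7 := h2 (s z) (mk v) _ (hs2 w)
          rw [hmk, hs1] at h7
          have h8 := mul_mem (hs2 z) h7
          have h9 : (z : G) * (s z)⁻¹ * (s z * ((w : G) * (s w)⁻¹) * (s z)⁻¹) =
              (z * w : G) * (s z * s w)⁻¹ := by group
          rwa [h9] at h8
        · intro z
          show (⟨s z, hs1 z⟩ : MulAction.stabilizer G v) = 1 ↔ _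
          rw [Subtype.ext_iff]
          show s z = 1 ↔ _
          constructor
          · intro h8
            have h9 := hs2 z
            rwa [h8, inv_one, mul_one] at h9
          · intro h8
            exact huniq z _ _ (hs1 z) (one_smul _ _) (hs2 z) (by rwa [inv_one, mul_one])
  refine tree_vert (QuotientGroup.mk' I) hC hCI hT hadj hinv ?_
  intro g v hg h1
  have h7 : g ∈ I := (QuotientGroup.eq_one_iff g).1 h1
  exact h5 v g ((hIdef g).1 h7 (mk v)) hg

end Main

end Q9.FJT
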