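import Pool.Agent.Q30.FJ.T1
import Pool.Agent.Y812.SS.Wr

/-!
# Extensions whose kernel is a residually small product of quotients permuted by the group
-/

set_option autoImplicit false

namespace Q9.FJT

open Pool.Agent.Y110.FJ (ClosedE Realized)
open Pool.Agent.Y462.SS (Closed Wr)

variable {C : ∀ (G : Type) [Group G], Prop}

/-- the base group of the wreath product -/
def wbase (Y L : Type) [Group L] : (Y → L) →* Wr Y L where
  toFun a := ⟨a, 1⟩
  map_one' := rfl
  map_mul' a b := by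
    ext x
    · rfl
    · rfl

theorem wbase_inj (Y L : Type) [Group L] : Function.Injective (wbase Y L) := by
  intro a b h
  exact congrArg Wr.s h

theorem wconj {Y L : Type} [Group L] (s : Y → L) (τ : Equiv.Perm Y) (a : Y → L) :
    (⟨s, τ⟩ : Wr Y L) * wbase Y L a * (⟨s, τ⟩ : Wr Y L)⁻¹ =
      wbase Y L (fun x => s (τ⁻¹ x) * a (τ⁻¹ x) * (s (τ⁻¹ x))⁻¹) := by
  ext x
  · rfl
  · show (τ * 1 * τ⁻¹) x = x
    rw [mul_one, mul_inv_cancel, Equiv.Perm.one_apply]

/-- cyclically shifted coordinates -/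
theorem cyc (hC : Closed C) {G : Type} [Group G] (M : Subgroup G) [M.Normal] {L : Type} [Group L]
    (φ : M →* L) (hL : C L) (g : G) (k : ℕ) (o : ℤ) (c : L) (E : Set G)
    (cj : ℤ → M → M) (hcj : ∀ i m, ((cj i m : M) : G) = g ^ (-i) * (m : G) * g ^ i)
    (hE : ∀ e : M, (e : G) ∈ E → φ (cj (o - 1) e) = c * φ (cj (k + o) e) * c⁻¹) :
    ∃ (P : Type) (_ : Group P) (f : M →* P) (p : P), C P ∧
      (∀ e e' : M, (e : G) ∈ E → (e' : G) = g * e * g⁻¹ → f e' = p * f e * p⁻¹) ∧
      ∀ h : M, f h = 1 → ∀ j : ℕ, j ≤ k → φ (cj (j + o) h) = 1 := by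
  have hmul : ∀ (i : ℤ) (a b : M), cj i (a * b) = cj i a * cj i b := by
    intro i a b
    apply Subtype.ext
    rw [hcj, Subgroup.coe_mul, Subgroup.coe_mul, hcj, hcj, zpow_neg]
    group
  have hone : ∀ i : ℤ, cj i 1 = 1 := by
    intro i
    apply Subtype.ext
    rw [hcj]
    simp
  let F : M →* (Fin (k + 1) → L) :=
    { toFun := fun h j => φ (cj ((j : ℕ) + o) h)
      map_one' := by
        funext j
        show φ (cj _ 1) = 1
        rw [hone, map_one]
      map_mul' := fun a b => by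
        funext j
        show φ (cj _ (a * b)) = φ (cj _ a) * φ (cj _ b)
        rw [hmul, map_mul] }
  have hF : ∀ h j, F h j = φ (cj ((j : ℕ) + o) h) := fun _ _ => rfl
  refine ⟨Wr (Fin (k + 1)) L, inferInstance, (wbase _ L).comp F,
    ⟨fun j => if j = Fin.last k then c else 1, finRotate (k + 1)⟩,
    Pool.Agent.Y812.SS.t_wr C hC _ L inferInstance hL, ?_, ?_⟩
  · intro e e' he he'
    rw [MonoidHom.comp_apply, MonoidHom.comp_apply, wconj]
    congr 1
    funext j
    obtain ⟨i, rfl⟩ : ∃ i, finRotate (k + 1) i = j := ⟨(finRotate (k + 1))⁻¹ j, by simp⟩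
    have h0 : (finRotate (k + 1))⁻¹ (finRotate (k + 1) i) = i := by simp
    rw [h0]
    have hsh : ∀ z : ℤ, cj z e' = cj (z - 1) e := by
      intro z
      apply Subtype.ext
      rw [hcj, hcj, he', neg_sub, zpow_sub, zpow_sub_one, zpow_one, zpow_neg]
      group
    rw [hF, hF, hsh]
    by_cases hi : i = Fin.last k
    · subst hi
      rw [if_pos rfl, finRotate_last]
      have h1 := hE e he
      simpa using h1
    · rw [if_neg hi, one_mul, inv_one, mul_one]
      have h2 : ((finRotate (k + 1) i : Fin (k + 1)) : ℕ) = i + 1 := by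
        rw [coe_finRotate_of_ne_last hi]
      rw [h2]
      congr 2
      push_cast
      ring
  · intro h hh j hj
    have h1 : F h = 1 := wbase_inj _ _ (hh.trans (map_one _).symm)
    have h2 := congrFun h1 ⟨j, Nat.lt_succ_of_le hj⟩
    rw [hF] at h2
    exact h2

/-- **kernels which are products of groups permuted by the group** -/
theorem sum_mem (hC : ClosedE C) (G X : Type) [Group G] (a : G →* Equiv.Perm X) (M : Subgroup G)
    [M.Normal] (K : X → Subgroup G) (hQ : C (G ⧸ M))
    (h2 : ∀ g x k, k ∈ K x → g * k * g⁻¹ ∈ K (a g x))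
    (h4 : ∀ m ∈ M, {x | m ∉ K x}.Finite)
    (h5 : ∀ m ∈ M, (∀ x, m ∈ K x) → m = 1)
    (h6 : ∀ x g, a g x = x → ∃ (L : Type) (_ : Group L) (φ : ↥(M ⊔ Subgroup.zpowers g) →* L),
      C L ∧ ∀ z, φ z = 1 ↔ (z : G) ∈ K x) : C G := by
  refine Q30.FJ.crit C hC G M hQ ?_
  intro g E hE hEM
  obtain ⟨cj, hcj⟩ : ∃ cj : ℤ → M → M, ∀ i m,
      ((cj i m : M) : G) = g ^ (-i) * (m : G) * g ^ i := by
    refine ⟨fun i m => ⟨g ^ (-i) * (m : G) * g ^ i, ?_⟩, fun _ _ => rfl⟩
    have := Subgroup.Normal.conj_mem (inferInstance : M.Normal) m m.2 (g ^ (-i))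
    simpa using this
  have hcjK : ∀ (i : ℤ) (m : M) (x : X), (m : G) ∈ K (a (g ^ i) x) → ((cj i m : M) : G) ∈ K x := by
    intro i m x hm
    have h1 := h2 (g ^ (-i)) _ _ hm
    rw [← Equiv.Perm.mul_apply, ← map_mul, zpow_neg, inv_mul_cancel, map_one,
      Equiv.Perm.one_apply, inv_inv] at h1
    rw [hcj, zpow_neg]
    exact h1
  -- one coordinate
  have one : ∀ x : X, ∃ (P : Type) (_ : Group P) (f : M →* P) (p : P), C P ∧
      (∀ e e' : M, (e : G) ∈ E → (e' : G) = g * e * g⁻¹ → f e' = p * f e * p⁻¹) ∧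
      ∀ h : M, f h = 1 → (h : G) ∈ K x := by
    intro x
    by_cases hx : ∃ n : ℕ, 0 < n ∧ a (g ^ n) x = x
    · obtain ⟨n, hn, hnx⟩ := hx
      obtain ⟨k, rfl⟩ : ∃ k, n = k + 1 := ⟨n - 1, by omega⟩
      obtain ⟨L, _, φ, hL, hφ⟩ := h6 x (g ^ (k + 1)) hnx
      have hgn : g ^ (k + 1) ∈ M ⊔ Subgroup.zpowers (g ^ (k + 1)) :=
        (le_sup_right : Subgroup.zpowers (g ^ (k + 1)) ≤ _) (Subgroup.mem_zpowers _)
      obtain ⟨P, _, f, p, hP, hf1, hf2⟩ := cyc hC.base M
        (φ.comp (Subgroup.inclusion (le_sup_left : M ≤ M ⊔ Subgroup.zpowers (g ^ (k + 1)))))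
        hL g k 0 (φ ⟨g ^ (k + 1), hgn⟩) E cj hcj (by
          intro e _
          rw [MonoidHom.comp_apply, MonoidHom.comp_apply, ← map_inv, ← map_mul, ← map_mul]
          congr 1
          apply Subtype.ext
          rw [Subgroup.coe_mul, Subgroup.coe_mul, Subgroup.coe_inv, Subgroup.coe_inclusion,
            Subgroup.coe_inclusion, hcj, hcj, add_zero, zero_sub, neg_neg, zpow_one,
            zpow_neg_one, zpow_neg, zpow_natCast]
          show g * (e : G) * g⁻¹ = g ^ (k + 1) * ((g ^ k)⁻¹ * e * g ^ k) * (g ^ (k + 1))⁻¹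
          rw [pow_succ' g k]
          group)
      refine ⟨P, inferInstance, f, p, hP, hf1, fun h hh => ?_⟩
      have h3 := hf2 h hh 0 (Nat.zero_le _)
      rw [MonoidHom.comp_apply, hφ] at h3
      have h7 : ((cj (((0 : ℕ) : ℤ) + 0) h : M) : G) ∈ K x := h3
      rw [hcj] at h7
      simpa using h7
    · push Not at hx
      have hinj : Function.Injective fun i : ℤ => a (g ^ i) x := by
        have key : ∀ i j : ℤ, i < j → a (g ^ i) x ≠ a (g ^ j) x := by
          intro i j hij h
          obtain ⟨n, hn⟩ := Int.eq_ofNat_of_zero_le (sub_nonneg.2 hij.le)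
          have h1 : a (g ^ (j - i)) x = x := by
            rw [sub_eq_neg_add, zpow_add, map_mul, Equiv.Perm.mul_apply, ← h,
              ← Equiv.Perm.mul_apply, ← map_mul, zpow_neg, inv_mul_cancel, map_one,
              Equiv.Perm.one_apply]
          rw [hn, zpow_natCast] at h1
          exact hx n (by omega) h1
        intro i j h
        rcases lt_trichotomy i j with h1 | h1 | h1
        · exact absurd h (key i j h1)
        · exact h1
        · exact absurd h.symm (key j i h1)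
      obtain ⟨L, _, φ, hL, hφ⟩ := h6 x 1 (by rw [map_one, Equiv.Perm.one_apply])
      have hfin : (⋃ e ∈ E, {i : ℤ | e ∉ K (a (g ^ i) x)}).Finite := by
        refine hE.biUnion fun e he => ?_
        exact (h4 e (hEM he)).preimage hinj.injOn
      obtain ⟨B, hB⟩ : ∃ B : ℕ, ∀ e ∈ E, ∀ i : ℤ, (B : ℤ) < |i| → e ∈ K (a (g ^ i) x) := by
        obtain ⟨B, hB⟩ := (hfin.image fun i : ℤ => i.natAbs).bddAbove
        refine ⟨B, fun e he i hi => ?_⟩
        by_contra hne
        have h1 := hB ⟨i, Set.mem_biUnion he hne, rfl⟩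
        have h3 : i.natAbs ≤ B := h1
        rw [Int.abs_eq_natAbs] at hi
        omega
      obtain ⟨P, _, f, p, hP, hf1, hf2⟩ := cyc hC.base M
        (φ.comp (Subgroup.inclusion (le_sup_left : M ≤ M ⊔ Subgroup.zpowers 1)))
        hL g (2 * B + 1) (-B) 1 E cj hcj (by
          intro e he
          rw [MonoidHom.comp_apply, MonoidHom.comp_apply,
            (hφ _).2 (hcjK (-(B : ℤ) - 1) e x (hB e he _ (by rw [abs_of_neg (by omega)]; omega))),
            (hφ _).2 (hcjK (((2 * B + 1 : ℕ) : ℤ) + -(B : ℤ)) e x (hB e he _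
              (by rw [abs_of_nonneg (by push_cast; omega)]; push_cast; omega)))]
          group)
      refine ⟨P, inferInstance, f, p, hP, hf1, fun h hh => ?_⟩
      have h3 := hf2 h hh B (by omega)
      rw [MonoidHom.comp_apply, hφ, add_neg_cancel] at h3
      have h7 : ((cj 0 h : M) : G) ∈ K x := h3
      rw [hcj] at h7
      simpa using h7
  -- finitely many coordinates
  have many : ∀ T : Set X, T.Finite → ∃ (P : Type) (_ : Group P) (f : M →* P) (p : P), C P ∧
      (∀ e e' : M, (e : G) ∈ E → (e' : G) = g * e * g⁻¹ → f e' = p * f e * p⁻¹) ∧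
      ∀ h : M, f h = 1 → ∀ x ∈ T, (h : G) ∈ K x := by
    intro T hT
    induction T, hT using Set.Finite.induction_on with
    | empty =>
      refine ⟨Unit, inferInstance, 1, 1, Pool.Agent.Y179.SS.of_subsingleton hC.base Unit, ?_, ?_⟩
      · intro _ _ _ _
        rfl
      · intro _ _ x hx
        exact absurd hx (Set.notMem_empty x)
    | @insert x T _ _ ih =>
      obtain ⟨P, _, f, p, hP, hf1, hf2⟩ := ih
      obtain ⟨P', _, f', p', hP', hf1', hf2'⟩ := one x
      refine ⟨P × P', inferInstance, f.prod f', (p, p'), hC.base.prod _ _ hP hP', ?_, ?_⟩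
      · intro e e' he he'
        exact Prod.ext (hf1 e e' he he') (hf1' e e' he he')
      · intro h hh y hy
        have h1 : f h = 1 := congrArg Prod.fst hh
        have h3 : f' h = 1 := congrArg Prod.snd hh
        rcases hy with rfl | hy
        · exact hf2' h h3
        · exact hf2 h h1 y hy
  have hEE : (E ∪ (fun x => g * x * g⁻¹) '' E).Finite := hE.union (hE.image _)
  have hEM' : E ∪ (fun x => g * x * g⁻¹) '' E ⊆ M := by
    rintro x (hx | ⟨y, hy, rfl⟩)
    · exact hEM hx
    · exact Subgroup.Normal.conj_mem inferInstance y (hEM hy) g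
  have hle : Subgroup.closure (E ∪ (fun x => g * x * g⁻¹) '' E) ≤ M :=
    (Subgroup.closure_le _).2 hEM'
  have hTfin : (⋃ e ∈ E ∪ (fun x => g * x * g⁻¹) '' E, {x | e ∉ K x}).Finite :=
    hEE.biUnion fun e he => h4 e (hEM' he)
  obtain ⟨P, _, f, p, hP, hf1, hf2⟩ := many _ hTfin
  refine ⟨P, inferInstance, f.comp (Subgroup.inclusion hle), p, hP, ?_, ?_⟩
  · rw [injective_iff_map_eq_one]
    intro h hh
    apply Subtype.ext
    refine h5 h (hle h.2) fun x => ?_
    by_cases hx : x ∈ ⋃ e ∈ E ∪ (fun x => g * x * g⁻¹) '' E, {x | e ∉ K x}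
    · exact hf2 (Subgroup.inclusion hle h) hh x hx
    · have h1 : E ∪ (fun x => g * x * g⁻¹) '' E ⊆ K x := by
        intro e he
        by_contra hne
        exact hx (Set.mem_biUnion he hne)
      exact (Subgroup.closure_le _).2 h1 h.2
  · intro x y hx hy
    exact hf1 _ _ hx hy

end Q9.FJT
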