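import Pool.Agent.Q9.FJT.Path

/-!
# Retractions to vertex stabilizers
-/

set_option autoImplicit false

namespace Q9.FJT

open Pool.Agent.Q293.HP SimpleGraph

section Pot

variable {V H : Type} [Group H] {T : SimpleGraph V} (D : V → V → H)

/-- the product of a cochain along a walk -/
def val : ∀ {a b : V}, T.Walk a b → H
  | _, _, Walk.nil => 1
  | a, _, Walk.cons (v := b) _ p => D a b * val p

theorem val_append {a b c : V} (p : T.Walk a b) (q : T.Walk b c) :
    val D (p.append q) = val D p * val D q := by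
  induction p with
  | nil => rw [Walk.nil_append, val, one_mul]
  | cons h p ih => rw [Walk.cons_append, val, val, ih, mul_assoc]

theorem val_concat {a b c : V} (p : T.Walk a b) (h : T.Adj b c) :
    val D (p.concat h) = val D p * D b c := by
  rw [Walk.concat_eq_append, val_append, val, val, mul_one]

/-- potentials on trees -/
theorem exists_potential (hT : T.IsTree) (v : V) (hD : ∀ a b, D b a = (D a b)⁻¹) :
    ∃ F : V → H, F v = 1 ∧ ∀ a b, T.Adj a b → F b = F a * D a b := by
  refine ⟨fun b => val D (tp hT v b), ?_, ?_⟩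
  · show val D (tp hT v v) = 1
    rw [tp_self]
    rfl
  · intro a b h
    show val D (tp hT v b) = val D (tp hT v a) * D a b
    by_cases ha : a ∈ (tp hT v b).support
    · rw [hT.isAcyclic.path_concat (tp_isPath hT v a) (tp_isPath hT v b) h ha, val_concat]
    · have hb := hT.isAcyclic.mem_support_of_ne_mem_support_of_adj_of_isPath
        (tp_isPath hT v a) (tp_isPath hT v b) h ha
      rw [hT.isAcyclic.path_concat (tp_isPath hT v b) (tp_isPath hT v a) h.symm hb, val_concat,
        hD a b, inv_mul_cancel_right]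

end Pot

section Ret

variable {G V : Type} [Group G] [MulAction G V] {T : SimpleGraph V}

/-- equivariant labels of the edges at `v` -/
theorem exists_label (hadj : ∀ (g : G) (v w : V), T.Adj v w → T.Adj (g • v) (g • w))
    (M : Subgroup G)
    (hM : ∀ m ∈ M, ∀ a b : V, T.Adj a b → m • a = a → m • b = b → m = 1) (v : V) :
    ∃ lam : V → G, ∀ n ∈ M, n • v = v → ∀ b, T.Adj v b → lam (n • b) = n * lam b := by
  classical
  let S : Subgroup G := M ⊓ MulAction.stabilizer G v
  let r : V → V := fun b => (Quotient.mk (MulAction.orbitRel S V) b).out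
  have hr : ∀ b, ∃ n : S, n • r b = b := by
    intro b
    have h1 : (MulAction.orbitRel S V) (r b) b := Quotient.exact (Quotient.out_eq _)
    obtain ⟨n, hn⟩ := (MulAction.orbitRel S V).symm h1
    exact ⟨n, hn⟩
  choose l hl using hr
  refine ⟨fun b => (l b : G), ?_⟩
  intro n hn hnv b hb
  have hnS : n ∈ S := ⟨hn, hnv⟩
  have hrn : r (n • b) = r b := by
    show (Quotient.mk (MulAction.orbitRel S V) _).out = _
    congr 1
    exact Quotient.sound ⟨⟨n, hnS⟩, rfl⟩
  have h1 : ((l (n • b) : S) : G) • r b = n • b := by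
    have := hl (n • b)
    rw [hrn] at this
    exact this
  have h2 : ((l b : S) : G) • r b = b := hl b
  have h3 : ((n * (l b : G))⁻¹ * (l (n • b) : G)) ∈ S :=
    S.mul_mem (S.inv_mem (S.mul_mem hnS (l b).2)) (l (n • b)).2
  have h4 : ((n * (l b : G))⁻¹ * (l (n • b) : G)) • r b = r b := by
    rw [mul_smul, h1, inv_smul_eq_iff, mul_smul, h2]
  have h5 : T.Adj v (r b) := by
    have h6 := hadj ((l b : G)⁻¹) v b hb
    have h7 : ((l b : G)⁻¹) • v = v := by
      rw [inv_smul_eq_iff]
      exact ((l b).2.2).symm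
    have h8 : ((l b : G)⁻¹) • b = r b := by rw [inv_smul_eq_iff, h2]
    rwa [h7, h8] at h6
  have h6 := hM _ h3.1 v (r b) h5 h3.2 h4
  exact (inv_mul_eq_one.1 h6).symm

/-- **the retraction to a vertex stabilizer** -/
theorem exists_ret (hT : T.IsTree)
    (hadj : ∀ (g : G) (v w : V), T.Adj v w → T.Adj (g • v) (g • w)) (M : Subgroup G)
    (hM : ∀ m ∈ M, ∀ a b : V, T.Adj a b → m • a = a → m • b = b → m = 1) (v : V) :
    ∃ p : M →* G, (∀ m : M, (m : G) • v = v → p m = m) ∧
      ∀ (m : M) (u : V), (m : G) • u = u → (∀ k ∈ M, k • v ≠ u) → p m = 1 := by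
  classical
  obtain ⟨lam, hlam⟩ := exists_label hadj M hM v
  let O : V → Prop := fun a => ∃ k ∈ M, k • v = a
  obtain ⟨h, hhv, hh⟩ : ∃ h : V → G, h v = 1 ∧ ∀ a, O a → h a ∈ M ∧ h a • v = a := by
    refine ⟨fun a => if a = v then 1 else if hO : O a then hO.choose else 1, by simp, ?_⟩
    intro a ha
    by_cases hav : a = v
    · subst hav
      simp [M.one_mem]
    · simp only [hav, if_false, dif_pos ha]
      exact ha.choose_spec
  let ell : V → V → G := fun a b => if O a then lam ((h a)⁻¹ • b) else 1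
  obtain ⟨F, hFv, hF⟩ := exists_potential (T := T) (fun a b => ell a b * (ell b a)⁻¹) hT v
    (fun a b => by group)
  let n : G → V → G := fun k a => if O a then (h a)⁻¹ * k⁻¹ * h (k • a) else 1
  have hOk : ∀ k ∈ M, ∀ a, O (k • a) ↔ O a := by
    intro k hk a
    constructor
    · rintro ⟨m, hm, hma⟩
      exact ⟨k⁻¹ * m, M.mul_mem (M.inv_mem hk) hm, by rw [mul_smul, hma, inv_smul_smul]⟩
    · rintro ⟨m, hm, rfl⟩
      exact ⟨k * m, M.mul_mem hk hm, by rw [mul_smul]⟩
  have hell : ∀ k ∈ M, ∀ a b, T.Adj a b → ell (k • a) (k • b) = (n k a)⁻¹ * ell a b := by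
    intro k hk a b hab
    by_cases ha : O a
    · have hka : O (k • a) := (hOk k hk a).2 ha
      obtain ⟨h1, h2⟩ := hh a ha
      obtain ⟨h3, h4⟩ := hh (k • a) hka
      show (if O (k • a) then lam _ else 1) = (if O a then _ else 1)⁻¹ * (if O a then _ else 1)
      rw [if_pos hka, if_pos ha, if_pos ha]
      have h5 : ((h a)⁻¹ * k⁻¹ * h (k • a))⁻¹ • v = v := by
        rw [inv_smul_eq_iff, mul_smul, h4, mul_smul, inv_smul_smul, eq_inv_smul_iff, h2]
      have h6 : ((h a)⁻¹ * k⁻¹ * h (k • a))⁻¹ ∈ M :=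
        M.inv_mem (M.mul_mem (M.mul_mem (M.inv_mem h1) (M.inv_mem hk)) h3)
      have h7 : T.Adj v ((h a)⁻¹ • b) := by
        have h8 := hadj (h a)⁻¹ a b hab
        have h9 : (h a)⁻¹ • a = v := by rw [inv_smul_eq_iff, h2]
        rwa [h9] at h8
      rw [← hlam _ h6 h5 _ h7]
      congr 1
      rw [smul_smul, smul_smul]
      congr 1
      group
    · have hka : ¬ O (k • a) := fun h' => ha ((hOk k hk a).1 h')
      show (if O (k • a) then lam _ else 1) = (if O a then _ else 1)⁻¹ * (if O a then _ else 1)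
      rw [if_neg hka, if_neg ha, if_neg ha, inv_one, one_mul]
  have hgauge : ∀ k ∈ M, ∀ {a b : V} (_ : T.Walk a b),
      F (k • a) = F (k • v) * (n k v)⁻¹ * F a * n k a →
      F (k • b) = F (k • v) * (n k v)⁻¹ * F b * n k b := by
    intro k hk a b w
    induction w with
    | nil => exact fun h => h
    | @cons a c b hac _ ih =>
      intro ha
      apply ih
      rw [hF _ _ (hadj k a c hac), hell k hk a c hac, hell k hk c a hac.symm, ha, hF a c hac]
      group
  have hv : ∀ k ∈ M, n k v = k⁻¹ * h (k • v) := by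
    intro k hk
    show (if O v then _ else 1) = _
    rw [if_pos ⟨1, M.one_mem, one_smul G v⟩, hhv, inv_one, one_mul]
  have hG : ∀ k ∈ M, ∀ b : V, F (k • b) = F (k • v) * (n k v)⁻¹ * F b * n k b := by
    intro k hk b
    refine hgauge k hk (tp hT v b) ?_
    rw [hFv]
    group
  refine ⟨MonoidHom.mk' (fun k => F ((k : G) • v) * (h ((k : G) • v))⁻¹ * k) ?_, ?_, ?_⟩
  · intro k k'
    show F (((k * k' : M) : G) • v) * (h (((k * k' : M) : G) • v))⁻¹ * ((k * k' : M) : G) = _
    rw [Subgroup.coe_mul, mul_smul, hG k k.2 ((k' : G) • v), hv k k.2]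
    have h1 : n k ((k' : G) • v) = (h ((k' : G) • v))⁻¹ * (k : G)⁻¹ *
        h ((k : G) • (k' : G) • v) := by
      show (if O ((k' : G) • v) then _ else 1) = _
      rw [if_pos ⟨k', k'.2, rfl⟩]
    rw [h1]
    group
  · intro m hm
    show F ((m : G) • v) * (h ((m : G) • v))⁻¹ * m = m
    rw [hm, hFv, hhv, inv_one, one_mul, one_mul]
  · intro m u hm hu
    show F ((m : G) • v) * (h ((m : G) • v))⁻¹ * m = 1
    have h1 := hG m m.2 u
    have h2 : n m u = 1 := by
      show (if O u then _ else 1) = _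
      rw [if_neg]
      rintro ⟨k, hk, hku⟩
      exact hu k hk hku
    rw [hm, h2, mul_one, hv m m.2] at h1
    have h3 : F ((m : G) • v) * ((m : G)⁻¹ * h ((m : G) • v))⁻¹ = 1 := mul_eq_right.1 h1.symm
    rw [mul_inv_rev, inv_inv, ← mul_assoc] at h3
    exact h3

end Ret

end Q9.FJT
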