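import Pool.Agent.Q9.FJT.Shift
import Pool.Agent.Q30.FJ.Nov

/-!
# Kernels of locally constant functions on a compact space
-/

set_option autoImplicit false

namespace Q9.FJT

open Pool.Agent.Y110.FJ (ClosedE Realized)
open Pool.Agent.Y462.SS (Closed)
open Filter

variable {C D : ∀ (G : Type) [Group G], Prop}

/-- finite products of realizations of a relation -/
theorem join (hC : Closed C) {N ι : Type} [Group N] (R : N → N → Prop) (S : ι → Set N)
    (T : Set ι) (hT : T.Finite)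
    (hone : ∀ i ∈ T, ∃ (P : Type) (_ : Group P) (f : N →* P) (p : P), C P ∧
      (∀ x y, R x y → f y = p * f x * p⁻¹) ∧ ∀ h : N, f h = 1 → h ∈ S i) :
    ∃ (P : Type) (_ : Group P) (f : N →* P) (p : P), C P ∧
      (∀ x y, R x y → f y = p * f x * p⁻¹) ∧ ∀ h : N, f h = 1 → ∀ i ∈ T, h ∈ S i := by
  induction T, hT using Set.Finite.induction_on with
  | empty =>
    refine ⟨Unit, inferInstance, 1, 1, Pool.Agent.Y179.SS.of_subsingleton hC Unit, ?_, ?_⟩
    · intro _ _ _
      rfl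
    · intro _ _ x hx
      exact absurd hx (Set.notMem_empty x)
  | @insert i T _ _ ih =>
    obtain ⟨P, _, f, p, hP, hf1, hf2⟩ := ih fun i hi => hone i (Or.inr hi)
    obtain ⟨P', _, f', p', hP', hf1', hf2'⟩ := hone i (Or.inl rfl)
    refine ⟨P × P', inferInstance, f.prod f', (p, p'), hC.prod _ _ hP hP', ?_, ?_⟩
    · intro e e' he
      exact Prod.ext (hf1 e e' he) (hf1' e e' he)
    · intro h hh j hj
      have h1 : f h = 1 := congrArg Prod.fst hh
      have h3 : f' h = 1 := congrArg Prod.snd hh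
      rcases hj with rfl | hj
      · exact hf2' h h3
      · exact hf2 h h1 j hj

/-- eventually periodic sequences -/
theorem exists_per_top {Z : Type} (u : ℤ → Z) (m : ℕ) (hm : 0 < m) (a : ℤ)
    (h : ∀ n, a ≤ n → u (n + m) = u n) :
    ∃ p : ℤ → Z, (∀ n, p (n + m) = p n) ∧ ∀ᶠ n in atTop, u n = p n := by
  refine ⟨fun n => u (a + (n - a) % m), ?_, ?_⟩
  · intro n
    show u (a + (n + m - a) % m) = u (a + (n - a) % m)
    have h1 : n + m - a = (n - a) + m := by ring
    rw [h1, Int.add_emod_right]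
  · filter_upwards [eventually_ge_atTop a] with n hn
    have key : ∀ k : ℕ, ∀ r : ℤ, 0 ≤ r → u (a + r + m * k) = u (a + r) := by
      intro k
      induction k with
      | zero => intro r _; simp
      | succ k ih =>
        intro r hr
        have h2 : (0 : ℤ) ≤ m * k := by positivity
        rw [← ih r hr, ← h (a + r + m * k) (by linarith)]
        congr 1
        push_cast
        ring
    have h4 : 0 ≤ (n - a) % m := Int.emod_nonneg _ (by omega)
    have h5 : 0 ≤ (n - a) / m := Int.ediv_nonneg (by omega) (by omega)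
    have h6 := key ((n - a) / m).toNat ((n - a) % m) h4
    have h7 : (((n - a) / m).toNat : ℤ) = (n - a) / m := Int.toNat_of_nonneg h5
    rw [h7] at h6
    have h8 : a + (n - a) % m + m * ((n - a) / m) = n := by
      have := Int.emod_add_mul_ediv (n - a) m
      linarith
    rw [h8] at h6
    exact h6

theorem exists_per_bot {Z : Type} (u : ℤ → Z) (m : ℕ) (hm : 0 < m) (a : ℤ)
    (h : ∀ n, n ≤ a → u (n - m) = u n) :
    ∃ p : ℤ → Z, (∀ n, p (n + m) = p n) ∧ ∀ᶠ n in atBot, u n = p n := by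
  obtain ⟨p, hp, hu⟩ := exists_per_top (fun n => u (-n)) m hm (-a) (by
    intro n hn
    have h1 := h (-n) (by omega)
    show u (-(n + m)) = u (-n)
    rw [← h1]
    congr 1
    ring)
  refine ⟨fun n => p (-n), ?_, ?_⟩
  · intro n
    show p (-(n + m)) = p (-n)
    rw [← hp (-(n + m))]
    congr 1
    ring
  · have h1 := tendsto_neg_atBot_atTop.eventually hu
    filter_upwards [h1] with n h2
    rwa [neg_neg] at h2

/-- iterates with finitely many values -/
theorem iter_per {Y : Type} (F : Y → Y) (hF : (Set.range F).Finite) (y : Y) :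
    ∃ (a b : ℕ), 0 < b ∧ ∀ k n : ℕ, a ≤ n → F^[n + b * k] y = F^[n] y := by
  obtain ⟨i, j, hij, h⟩ : ∃ i j : ℕ, i < j ∧ F^[i + 1] y = F^[j + 1] y := by
    have h1 : (Set.range fun n : ℕ => F^[n + 1] y).Finite := by
      refine hF.subset ?_
      rintro _ ⟨n, rfl⟩
      show F^[n + 1] y ∈ Set.range F
      rw [Function.iterate_succ_apply']
      exact ⟨_, rfl⟩
    have h2 : ¬ Function.Injective fun n : ℕ => F^[n + 1] y := fun hinj =>
      Set.infinite_range_of_injective hinj h1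
    rw [Function.not_injective_iff] at h2
    obtain ⟨i, j, h3, hne⟩ := h2
    rcases lt_or_gt_of_ne hne with h4 | h4
    · exact ⟨i, j, h4, h3⟩
    · exact ⟨j, i, h4, h3.symm⟩
  refine ⟨i + 1, j - i, by omega, ?_⟩
  intro k n hn
  induction k with
  | zero => simp
  | succ k ih =>
    rw [← ih]
    have h1 : n + (j - i) * (k + 1) = (n - (i + 1) + (j - i) * k) + (j + 1) := by
      rw [mul_add, mul_one]
      omega
    have h2 : n + (j - i) * k = (n - (i + 1) + (j - i) * k) + (i + 1) := by omega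
    rw [h1, h2, Function.iterate_add_apply F _ (j + 1), Function.iterate_add_apply F _ (i + 1), h]

/-- **pseudo-orbits** -/
theorem pseudo {Y Z : Type} (κ : Y → Z) (hκ : (Set.range κ).Finite) (σ : Y ≃ Y) (y : Y) :
    ∃ (u : ℤ → Y) (m : ℕ), 0 < m ∧ u 0 = y ∧ (∀ n, κ (σ (u n)) = κ (u (n - 1))) ∧
      (∃ p : ℤ → Y, (∀ n, p (n + m) = p n) ∧ ∀ᶠ n in atTop, u n = p n) ∧
      ∃ q : ℤ → Y, (∀ n, q (n + m) = q n) ∧ ∀ᶠ n in atBot, u n = q n := by
  classical
  let s : Z → Y := fun v => if h : ∃ y, κ y = v then h.choose else y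
  let t : Y → Y := fun z => s (κ z)
  have ht : ∀ z, κ (t z) = κ z := by
    intro z
    have h1 : ∃ y, κ y = κ z := ⟨z, rfl⟩
    show κ (if h : ∃ y, κ y = κ z then h.choose else y) = κ z
    rw [dif_pos h1]
    exact h1.choose_spec
  have htf : (Set.range t).Finite := by
    refine (hκ.image s).subset ?_
    rintro _ ⟨z, rfl⟩
    exact ⟨κ z, ⟨z, rfl⟩, rfl⟩
  let F : Y → Y := fun z => σ.symm (t z)
  let B : Y → Y := fun z => t (σ z)
  have hFf : (Set.range F).Finite := by
    refine (htf.image σ.symm).subset ?_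
    rintro _ ⟨z, rfl⟩
    exact ⟨t z, ⟨z, rfl⟩, rfl⟩
  have hBf : (Set.range B).Finite := by
    refine htf.subset ?_
    rintro _ ⟨z, rfl⟩
    exact ⟨σ z, rfl⟩
  obtain ⟨a, b, hb, hab⟩ := iter_per F hFf y
  obtain ⟨a', b', hb', hab'⟩ := iter_per B hBf y
  let u : ℤ → Y := fun n => if 0 ≤ n then F^[n.toNat] y else B^[(-n).toNat] y
  have hup : ∀ n : ℕ, u n = F^[n] y := by
    intro n
    show (if 0 ≤ (n : ℤ) then _ else _) = _
    rw [if_pos (by omega), Int.toNat_natCast]
  have hun : ∀ n : ℕ, u (-(n : ℤ)) = B^[n] y := by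
    intro n
    show (if 0 ≤ -(n : ℤ) then _ else _) = _
    by_cases hn : n = 0
    · subst hn
      simp
    · rw [if_neg (by omega), neg_neg, Int.toNat_natCast]
  refine ⟨u, b * b', Nat.mul_pos hb hb', by simpa using hup 0, ?_, ?_, ?_⟩
  · intro n
    rcases le_or_gt n 0 with hn | hn
    · obtain ⟨k, rfl⟩ : ∃ k : ℕ, n = -(k : ℤ) := ⟨(-n).toNat, by omega⟩
      have h1 : -(k : ℤ) - 1 = -((k + 1 : ℕ) : ℤ) := by push_cast; ring
      rw [h1, hun, hun, Function.iterate_succ_apply']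
      exact (ht _).symm
    · obtain ⟨k, rfl⟩ : ∃ k : ℕ, n = ((k + 1 : ℕ) : ℤ) := ⟨(n - 1).toNat, by omega⟩
      have h1 : ((k + 1 : ℕ) : ℤ) - 1 = (k : ℤ) := by push_cast; ring
      rw [h1, hup, hup, Function.iterate_succ_apply']
      show κ (σ (σ.symm (t (F^[k] y)))) = _
      rw [Equiv.apply_symm_apply, ht]
  · refine exists_per_top u (b * b') (Nat.mul_pos hb hb') a ?_
    intro n hn
    obtain ⟨k, rfl⟩ : ∃ k : ℕ, n = (k : ℤ) := ⟨n.toNat, by omega⟩
    rw [← Nat.cast_add, hup, hup]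
    exact hab b' k (by omega)
  · refine exists_per_bot u (b * b') (Nat.mul_pos hb hb') (-(a' : ℤ)) ?_
    intro n hn
    obtain ⟨k, rfl⟩ : ∃ k : ℕ, n = -(k : ℤ) := ⟨(-n).toNat, by omega⟩
    have h1 : -(k : ℤ) - ((b * b' : ℕ) : ℤ) = -((k + b' * b : ℕ) : ℤ) := by push_cast; ring
    rw [h1, hun, hun]
    exact hab' b k (by omega)

section LC

variable {A Y : Type} [Group A] [TopologicalSpace Y] [CompactSpace Y]

/-- one point -/
theorem lc_point (hC : ClosedE C) (hA : C A) (σ : Y ≃ₜ Y) (E : Set (LocallyConstant Y A))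
    (hE : E.Finite) (y : Y) :
    ∃ (P : Type) (_ : Group P) (f : LocallyConstant Y A →* P) (p : P), C P ∧
      (∀ x x' : LocallyConstant Y A, (x ∈ E ∧ x' = x.comap (σ : C(Y, Y))) →
        f x' = p * f x * p⁻¹) ∧ ∀ h, f h = 1 → h y = 1 := by
  have hEf : Finite E := hE.to_subtype
  let κ : Y → (E → A) := fun y x => (x : LocallyConstant Y A) y
  have hκ : (Set.range κ).Finite := by
    refine (Set.Finite.pi' fun x : E => (x : LocallyConstant Y A).range_finite).subset ?_
    rintro _ ⟨z, rfl⟩ x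
    exact ⟨z, rfl⟩
  obtain ⟨u, m, hm, hu0, hu, ⟨p, hp, hup⟩, q, hq, huq⟩ := pseudo κ hκ σ.toEquiv y
  let S : Subgroup (UU A) := GE A isEnd_top m ⊓ GE A isEnd_bot m
  have hmem : ∀ h : LocallyConstant Y A, (⟨fun n => h (u n), 1⟩ : UU A) ∈ S := by
    intro h
    refine ⟨⟨fun n => h (p n), fun n => ?_, ?_⟩, ⟨fun n => h (q n), fun n => ?_, ?_⟩⟩
    · show h (p (n + m)) = h (p n)
      rw [hp]
    · filter_upwards [hup] with n hn
      show h (u n) = h (p n)
      rw [hn]
    · show h (q (n + m)) = h (q n)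
      rw [hq]
    · filter_upwards [huq] with n hn
      show h (u n) = h (q n)
      rw [hn]
  have hgen : (⟨1, Multiplicative.ofAdd (1 : ℤ)⟩ : UU A) ∈ S :=
    ⟨⟨1, (Per A m).one_mem, Eventually.of_forall fun _ => rfl⟩,
      ⟨1, (Per A m).one_mem, Eventually.of_forall fun _ => rfl⟩⟩
  refine ⟨S, inferInstance, MonoidHom.mk' (fun h => ⟨⟨fun n => h (u n), 1⟩, hmem h⟩) ?_,
    ⟨⟨1, Multiplicative.ofAdd (1 : ℤ)⟩, hgen⟩, ep_mem hC hA m hm, ?_, ?_⟩
  · intro h h'
    apply Subtype.ext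
    refine SemidirectProduct.ext ?_ rfl
    funext n
    show h (u n) * h' (u n) = h (u n) * h' (u (n - 0))
    rw [sub_zero]
  · rintro x x' ⟨hx, rfl⟩
    rw [eq_mul_inv_iff_mul_eq]
    apply Subtype.ext
    refine SemidirectProduct.ext ?_ ?_
    · funext n
      show x (σ (u n)) * 1 = 1 * x (u (n - 1))
      have h1 : κ (σ (u n)) ⟨x, hx⟩ = κ (u (n - 1)) ⟨x, hx⟩ := congrFun (hu n) ⟨x, hx⟩
      rw [mul_one, one_mul]
      exact h1
    · show (1 : Multiplicative ℤ) * Multiplicative.ofAdd 1 = Multiplicative.ofAdd 1 * 1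
      rw [one_mul, mul_one]
  · intro h hh
    have h1 : (⟨fun n => h (u n), 1⟩ : UU A) = 1 := congrArg Subtype.val hh
    have h2 := congrFun (congrArg SemidirectProduct.left h1) 0
    rw [← hu0]
    exact h2

/-- **kernels of locally constant functions** -/
theorem lc_mem (hC : ClosedE C) (hD : Q30.FJ.ClosedOver C D) (hA : C A) {G : Type} [Group G]
    (N : Subgroup G) [N.Normal] (ι : N →* LocallyConstant Y A) (hι : Function.Injective ι)
    (hconj : ∀ g : G, ∃ (σ : Y ≃ₜ Y) (u : LocallyConstant Y A), ∀ n n' : N,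
      (n' : G) = g * n * g⁻¹ → ι n' = u * (ι n).comap (σ : C(Y, Y)) * u⁻¹)
    (hQ : D (G ⧸ N)) : D G := by
  refine Q30.FJ.crit_over hC hD G N hQ fun g E hE hEN => Or.inl ?_
  obtain ⟨σ, u, hσ⟩ := hconj g
  let EN : Set N := Subtype.val ⁻¹' E
  have hEN' : EN.Finite := hE.preimage Subtype.val_injective.injOn
  let E1 : Set (LocallyConstant Y A) := insert u (ι '' EN)
  have hE1 : E1.Finite := (hEN'.image ι).insert u
  have hE1f : Finite E1 := hE1.to_subtype
  -- the finitely many points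
  let e : Y → (E1 → A × A) := fun y x => ((x : LocallyConstant Y A) y,
    (x : LocallyConstant Y A) (σ y))
  have he : (Set.range e).Finite := by
    refine (Set.Finite.pi' fun x : E1 => ((x : LocallyConstant Y A).range_finite.prod
      (x : LocallyConstant Y A).range_finite)).subset ?_
    rintro _ ⟨z, rfl⟩ x
    exact ⟨⟨z, rfl⟩, ⟨σ z, rfl⟩⟩
  obtain ⟨T, hT, hTe⟩ : ∃ T : Set Y, T.Finite ∧ ∀ y, ∃ y' ∈ T, e y' = e y := by
    have hef : Finite (Set.range e) := he.to_subtype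
    choose s hs using fun v : Set.range e => v.2
    exact ⟨Set.range s, Set.finite_range s, fun y => ⟨s ⟨e y, ⟨y, rfl⟩⟩, ⟨_, rfl⟩,
      hs ⟨e y, ⟨y, rfl⟩⟩⟩⟩
  obtain ⟨P, _, f, p, hP, hf1, hf2⟩ := join hC.base
    (fun x x' : LocallyConstant Y A => x ∈ E1 ∧ x' = x.comap (σ : C(Y, Y)))
    (fun y : Y => {h | h y = 1}) T hT fun y _ => lc_point hC hA σ E1 hE1 y
  have hle : Subgroup.closure (E ∪ (fun x => g * x * g⁻¹) '' E) ≤ N := by
    rw [Subgroup.closure_le]
    rintro x (hx | ⟨y, hy, rfl⟩)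
    · exact hEN hx
    · exact Subgroup.Normal.conj_mem inferInstance y (hEN hy) g
  refine ⟨P, inferInstance, (f.comp ι).comp (Subgroup.inclusion hle), f u * p, hP, ?_, ?_⟩
  · rw [injective_iff_map_eq_one]
    intro h hh
    have hconst : ∀ (z : G) (hz : z ∈ Subgroup.closure (E ∪ (fun x => g * x * g⁻¹) '' E)),
        ∀ y y', e y = e y' → ι ⟨z, hle hz⟩ y = ι ⟨z, hle hz⟩ y' := by
      intro z hz
      induction hz using Subgroup.closure_induction with
      | mem z hz =>
        intro y y' hyy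
        rcases hz with hz | ⟨x, hx, rfl⟩
        · exact congrArg Prod.fst (congrFun hyy ⟨ι ⟨z, hEN hz⟩, Or.inr ⟨_, hz, rfl⟩⟩)
        · have h1 : ∀ w, ι ⟨g * x * g⁻¹, hle (Subgroup.subset_closure (Or.inr ⟨x, hx, rfl⟩))⟩ w =
              u w * ι ⟨x, hEN hx⟩ (σ w) * (u w)⁻¹ := by
            intro w
            rw [hσ ⟨x, hEN hx⟩ _ rfl]
            rfl
          have h2 := congrFun hyy ⟨u, Or.inl rfl⟩
          have h3 : u y = u y' := congrArg Prod.fst h2
          have h4 := congrFun hyy ⟨ι ⟨x, hEN hx⟩, Or.inr ⟨_, hx, rfl⟩⟩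
          have h5 : ι ⟨x, hEN hx⟩ (σ y) = ι ⟨x, hEN hx⟩ (σ y') := congrArg Prod.snd h4
          have h6 := h1 y
          have h7 := h1 y'
          exact h6.trans (by rw [h3, h5]; exact h7.symm)
      | one =>
        intro y y' _
        have h1 : ι ⟨1, hle (one_mem _)⟩ = 1 := map_one ι
        rw [h1]
        rfl
      | mul a b ha hb iha ihb =>
        intro y y' hyy
        have h1 : ι ⟨a * b, hle (mul_mem ha hb)⟩ = ι ⟨a, hle ha⟩ * ι ⟨b, hle hb⟩ :=
          map_mul ι ⟨a, hle ha⟩ ⟨b, hle hb⟩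
        rw [h1]
        show ι ⟨a, hle ha⟩ y * ι ⟨b, hle hb⟩ y = ι ⟨a, hle ha⟩ y' * ι ⟨b, hle hb⟩ y'
        rw [iha y y' hyy, ihb y y' hyy]
      | inv a ha iha =>
        intro y y' hyy
        have h1 : ι ⟨a⁻¹, hle (inv_mem ha)⟩ = (ι ⟨a, hle ha⟩)⁻¹ := map_inv ι ⟨a, hle ha⟩
        rw [h1]
        show (ι ⟨a, hle ha⟩ y)⁻¹ = (ι ⟨a, hle ha⟩ y')⁻¹
        rw [iha y y' hyy]
    have h1 : ι (Subgroup.inclusion hle h) = 1 := by
      ext y
      obtain ⟨y', hy', hyy⟩ := hTe y
      have h2 := hf2 _ hh y' hy'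
      have h3 := hconst h h.2 y' y hyy
      exact h3.symm.trans h2
    have h2 : Subgroup.inclusion hle h = 1 := hι (h1.trans (map_one ι).symm)
    apply Subtype.ext
    exact congrArg (fun z : N => (z : G)) h2
  · intro x y hx hy
    show f (ι (Subgroup.inclusion hle y)) = f u * p * f (ι (Subgroup.inclusion hle x)) *
      (f u * p)⁻¹
    rw [hσ (Subgroup.inclusion hle x) (Subgroup.inclusion hle y) hy, map_mul, map_mul, map_inv,
      hf1 (ι (Subgroup.inclusion hle x)) _ ⟨Or.inr ⟨_, hx, rfl⟩, rfl⟩]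
    group

end LC

end Q9.FJT
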