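import Pool.Agent.Q293.TreeEmb

/-!
# Words of paths in trees: backtracks
-/

set_option autoImplicit false

namespace Q9.FJT

open Pool.Agent.Q293.HP SimpleGraph

section

variable {Γ Q V : Type} [Group Γ] [Group Q] [MulAction Γ V] {T : SimpleGraph V} (ρ : Γ →* Q)

/-- a walk whose word is not reduced has a backtrack modulo the kernel -/
theorem backtrack (hinv : ∀ (γ : Γ) (v w : V), T.Adj v w → ¬ (γ • v = w ∧ γ • w = v))
    {a b : V} (p : T.Walk a b) (h : ¬ FreeGroup.IsReduced (wl ρ p)) :
    ∃ (z y z' : V) (hz : T.Adj z y) (hz' : T.Adj y z') (p1 : T.Walk a z) (p2 : T.Walk z' b)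
      (γ : Γ), p = p1.append (Walk.cons hz (Walk.cons hz' p2)) ∧ ρ γ = 1 ∧ γ • y = y ∧
        γ • z = z' := by
  induction p with
  | nil => exact absurd FreeGroup.IsReduced.nil h
  | @cons a c b h1 p ih =>
    by_cases hp : FreeGroup.IsReduced (wl ρ p)
    · cases p with
      | nil =>
        exfalso
        apply h
        show FreeGroup.IsReduced [(dt T ρ a c h1, true), (dt T ρ c a h1.symm, false)]
        rw [FreeGroup.isReduced_cons_cons]
        refine ⟨fun he => ?_, FreeGroup.IsReduced.singleton⟩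
        obtain ⟨γ, _, h2, h3⟩ := (dt_eq_iff T ρ _ _ _ _ h1 h1.symm).1 he
        exact absurd ⟨h2.symm, h3.symm⟩ (hinv γ a c h1)
      | @cons _ d _ h' p' =>
        by_cases he : dt T ρ c a h1.symm = dt T ρ c d h'
        · obtain ⟨γ, h2, h3, h4⟩ := (dt_eq_iff T ρ _ _ _ _ h1.symm h').1 he
          exact ⟨a, c, d, h1, h', Walk.nil, p', γ, rfl, h2, h3.symm, h4.symm⟩
        · exfalso
          apply h
          show FreeGroup.IsReduced ((dt T ρ a c h1, true) :: (dt T ρ c a h1.symm, false) ::
            (dt T ρ c d h', true) :: _)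
          rw [FreeGroup.isReduced_cons_cons, FreeGroup.isReduced_cons_cons]
          refine ⟨fun he' => ?_, fun he' => absurd he' he, hp⟩
          obtain ⟨γ, _, h2, h3⟩ := (dt_eq_iff T ρ _ _ _ _ h1 h1.symm).1 he'
          exact absurd ⟨h2.symm, h3.symm⟩ (hinv γ a c h1)
    · obtain ⟨z, y, z', hz, hz', p1, p2, γ, h2, h3⟩ := ih hp
      exact ⟨z, y, z', hz, hz', Walk.cons h1 p1, p2, γ, by rw [h2, Walk.cons_append], h3⟩

/-- a walk with reduced word and trivial value is trivial -/
theorem nil_of_reduced {a b : V} (p : T.Walk a b) (h : FreeGroup.IsReduced (wl ρ p))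
    (h1 : wd ρ p = 1) : a = b := by
  classical
  cases p with
  | nil => rfl
  | @cons _ d _ h' p' =>
    exfalso
    have h3 := h.reduce_eq
    have h2 := congrArg FreeGroup.toWord h1
    rw [wd, FreeGroup.toWord_mk, FreeGroup.toWord_one, h3] at h2
    simp [wl] at h2

variable (hT : T.IsTree)

theorem tp_length_le {a b : V} (w : T.Walk a b) : (tp hT a b).length ≤ w.length := by
  classical
  rw [← tp_unique hT w.bypass w.bypass_isPath]
  exact w.length_bypass_le_length

theorem tp_self (a : V) : tp hT a a = Walk.nil :=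
  (tp_unique hT Walk.nil Walk.IsPath.nil).symm

theorem wd_tp (v : V) {b : V} (w : T.Walk v b) : wd ρ (tp hT v b) = wd ρ w := by
  rw [wd_walk ρ hT v w, tp_self, wd_nil, one_mul]

theorem wd_map_ker (hadj : ∀ (γ : Γ) (v w : V), T.Adj v w → T.Adj (γ • v) (γ • w)) (γ : Γ)
    (hγ : ρ γ = 1) {a b : V} (p : T.Walk a b) :
    wd ρ (p.map (⟨fun v => γ • v, fun h => hadj γ _ _ h⟩ : T →g T)) = wd ρ p := by
  rw [wd_map ρ hadj γ p, hγ]
  have h1 : (fun x : Ind T ρ => (1 : Q) • x) = id := by
    funext x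
    rw [one_smul]
    rfl
  rw [h1]
  exact FreeGroup.map.id _

/-- induction over the vertices to which the path has a trivial word -/
theorem orbit_ind (hadj : ∀ (γ : Γ) (v w : V), T.Adj v w → T.Adj (γ • v) (γ • w))
    (hinv : ∀ (γ : Γ) (v w : V), T.Adj v w → ¬ (γ • v = w ∧ γ • w = v)) (v : V) (A : Set V)
    (hv : v ∈ A) (hA : ∀ (y : V) (γ : Γ), ρ γ = 1 → γ • y = y →
      (wd ρ (tp hT v y) = 1 → y ∈ A) → ∀ u ∈ A, γ • u ∈ A) :
    ∀ u, wd ρ (tp hT v u) = 1 → u ∈ A := by
  have key : ∀ (n : ℕ) (u : V), (tp hT v u).length ≤ n → wd ρ (tp hT v u) = 1 → u ∈ A := by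
    intro n
    induction n with
    | zero =>
      intro u hu _
      have h1 := Walk.eq_of_length_eq_zero (Nat.le_zero.1 hu)
      rw [← h1]
      exact hv
    | succ n ih =>
      intro u hu hw
      by_cases hr : FreeGroup.IsReduced (wl ρ (tp hT v u))
      · rw [← nil_of_reduced ρ _ hr hw]
        exact hv
      · obtain ⟨z, y, z', hz, hz', p1, p2, γ, hp, hγ, hy, hzz⟩ := backtrack ρ hinv _ hr
        have hlen : (tp hT v u).length = p1.length + (p2.length + 2) := by
          rw [hp, Walk.length_append, Walk.length_cons, Walk.length_cons]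
        have hyA : wd ρ (tp hT v y) = 1 → y ∈ A := by
          refine ih y ?_
          have h1 := tp_length_le hT (p1.concat hz)
          rw [Walk.length_concat] at h1
          omega
        -- the new walk
        have hz0 : γ⁻¹ • z' = z := by rw [← hzz, inv_smul_smul]
        have hy0 : γ⁻¹ • y = y := by rw [inv_smul_eq_iff, hy]
        have hγ' : ρ γ⁻¹ = 1 := by rw [map_inv, hγ, inv_one]
        obtain ⟨p3, hp3, hl3⟩ : ∃ p3 : T.Walk z (γ⁻¹ • u), wd ρ p3 = wd ρ p2 ∧
            p3.length = p2.length := by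
          have h1 := wd_map_ker ρ hadj γ⁻¹ hγ' p2
          refine ⟨(p2.map (⟨fun v => γ⁻¹ • v, fun h => hadj γ⁻¹ _ _ h⟩ : T →g T)).copy hz0 rfl,
            ?_, ?_⟩
          · rw [← h1]
            have : ∀ {a b a' b' : V} (q : T.Walk a b) (h : a = a') (h' : b = b'),
                wd ρ (q.copy h h') = wd ρ q := by
              rintro a b _ _ q rfl rfl
              rfl
            exact this _ _ _
          · rw [Walk.length_copy, Walk.length_map]
        have hyy : yy ρ hz' = yy ρ hz.symm := by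
          rw [yy, yy, (dt_eq_iff T ρ _ _ _ _ hz.symm hz').2 ⟨γ, hγ, hy.symm, hzz.symm⟩,
            (dt_eq_iff T ρ _ _ _ _ hz hz'.symm).2 ⟨γ, hγ, hzz.symm, hy.symm⟩]
        have hw' : wd ρ (p1.append p3) = 1 := by
          rw [hp, wd_append, wd_cons, wd_cons, hyy, yy_symm ρ hz, mul_inv_cancel_left] at hw
          rw [wd_append, hp3, hw]
        have hmem : γ⁻¹ • u ∈ A := by
          refine ih _ ?_ ?_
          · have h1 := tp_length_le hT (p1.append p3)
            rw [Walk.length_append, hl3] at h1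
            omega
          · rw [wd_tp ρ hT v (p1.append p3), hw']
        have h5 := hA y γ hγ hy hyA _ hmem
        rwa [smul_inv_smul] at h5
  intro u hu
  exact key _ u le_rfl hu

/-- the word of the path to a translate by a product of elements of the kernel with fixed points -/
theorem wd_stab (hadj : ∀ (γ : Γ) (v w : V), T.Adj v w → T.Adj (γ • v) (γ • w)) (v : V) (m : Γ)
    (hm : m ∈ Subgroup.closure {n : Γ | ρ n = 1 ∧ ∃ u : V, n • u = u}) :
    ρ m = 1 ∧ wd ρ (tp hT v (m • v)) = 1 := by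
  induction hm using Subgroup.closure_induction with
  | mem n hn =>
    obtain ⟨hn, u, hu⟩ := hn
    refine ⟨hn, ?_⟩
    have h1 := wd_map_ker ρ hadj n hn (tp hT u v)
    obtain ⟨p3, hp3⟩ : ∃ p3 : T.Walk u (n • v), wd ρ p3 = wd ρ (tp hT u v) := by
      refine ⟨((tp hT u v).map (⟨fun v => n • v, fun h => hadj n _ _ h⟩ : T →g T)).copy hu rfl,
        ?_⟩
      rw [← h1]
      have : ∀ {a b a' b' : V} (q : T.Walk a b) (h : a = a') (h' : b = b'),
          wd ρ (q.copy h h') = wd ρ q := by
        rintro a b _ _ q rfl rfl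
        rfl
      exact this _ _ _
    rw [wd_tp ρ hT v ((tp hT v u).append p3), wd_append, hp3, ← wd_append,
      ← wd_tp ρ hT v, tp_self, wd_nil]
  | one => exact ⟨map_one ρ, by rw [one_smul, tp_self, wd_nil]⟩
  | mul m n _ _ hm hn =>
    refine ⟨by rw [map_mul, hm.1, hn.1, one_mul], ?_⟩
    rw [cocycle ρ hT hadj, hm.2, hn.2, map_one, one_mul]
  | inv m _ hm =>
    refine ⟨by rw [map_inv, hm.1, inv_one], ?_⟩
    have h1 := cocycle ρ hT hadj v m m⁻¹
    rw [mul_inv_cancel, one_smul, tp_self, wd_nil, hm.2, one_mul] at h1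
    have h2 : (fun x : Ind T ρ => ρ m • x) = id := by
      funext x
      rw [hm.1, one_smul]
      rfl
    rw [h2] at h1
    exact (h1.trans (FreeGroup.map.id _)).symm

end

end Q9.FJT
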