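import Pool.Agent.Q9.FJT.Sum

/-!
# Shifts of eventually periodic functions on the integers with values in a group
-/

set_option autoImplicit false

namespace Q9.FJT

open Pool.Agent.Y110.FJ (ClosedE Realized)
open Pool.Agent.Y462.SS (Closed)
open Filter

variable {C : ∀ (G : Type) [Group G], Prop}

section Defs

variable (A : Type) [Group A]

/-- the action of the integers on functions by translations -/
def shHom : Multiplicative ℤ →* MulAut (ℤ → A) where
  toFun k :=
    { toFun := fun f n => f (n - k.toAdd)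
      invFun := fun f n => f (n + k.toAdd)
      left_inv := fun f => by funext n; simp
      right_inv := fun f => by funext n; simp
      map_mul' := fun _ _ => rfl }
  map_one' := by
    ext f n
    show f (n - 0) = f n
    rw [sub_zero]
  map_mul' a b := by
    ext f n
    show f (n - (a.toAdd + b.toAdd)) = f (n - a.toAdd - b.toAdd)
    rw [sub_sub]

/-- the unrestricted wreath product -/
abbrev UU : Type := (ℤ → A) ⋊[shHom A] Multiplicative ℤ

variable {A}

theorem uu_mul (z w : UU A) (n : ℤ) :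
    (z * w).left n = z.left n * w.left (n - z.right.toAdd) := rfl

theorem uu_inv (z : UU A) (n : ℤ) : (z⁻¹).left n = (z.left (n + z.right.toAdd))⁻¹ := by
  show (z.left (n - (z.right⁻¹).toAdd))⁻¹ = _
  rw [toAdd_inv, sub_neg_eq_add]

/-- periodic functions -/
def Per (A : Type) [Group A] (m : ℕ) : Subgroup (ℤ → A) where
  carrier := {f | ∀ n, f (n + m) = f n}
  mul_mem' := fun {f g} hf hg n => by
    show f (n + m) * g (n + m) = f n * g n
    rw [hf n, hg n]
  one_mem' := fun _ => rfl
  inv_mem' := fun {f} hf n => by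
    show (f (n + m))⁻¹ = (f n)⁻¹
    rw [hf n]

theorem per_mul {m : ℕ} {f : ℤ → A} (hf : f ∈ Per A m) (n j : ℤ) : f (n + m * j) = f n := by
  have hf' : ∀ n, f (n + m) = f n := hf
  induction j using Int.induction_on with
  | zero => simp
  | succ k ih => rw [mul_add, mul_one, ← add_assoc, hf', ih]
  | pred k ih =>
    rw [mul_sub, mul_one, ← hf', ← ih]
    congr 1
    ring

theorem per_shift {m : ℕ} {f : ℤ → A} (hf : f ∈ Per A m) (k : ℤ) :
    (fun n => f (n - k)) ∈ Per A m := by
  intro n
  have hf' : ∀ n, f (n + m) = f n := hf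
  show f (n + m - k) = f (n - k)
  rw [← hf' (n - k)]
  congr 1
  ring

/-- periodic functions and translations -/
def GPer (A : Type) [Group A] (m : ℕ) : Subgroup (UU A) where
  carrier := {z | z.left ∈ Per A m}
  mul_mem' := fun {z w} hz hw => (Per A m).mul_mem hz (per_shift hw z.right.toAdd)
  one_mem' := (Per A m).one_mem
  inv_mem' := fun {z} hz => by
    have h1 := (Per A m).inv_mem (per_shift hz (-z.right.toAdd))
    have h2 : (z⁻¹).left = (fun n => z.left (n - (-z.right.toAdd)))⁻¹ := by
      funext n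
      rw [uu_inv, Pi.inv_apply, sub_neg_eq_add]
    show (z⁻¹).left ∈ Per A m
    rw [h2]
    exact h1

theorem gper_mem (hC : Closed C) (hA : C A) (m : ℕ) (hm : 0 < m) : C (GPer A m) := by
  have : NeZero m := ⟨hm.ne'⟩
  let q : GPer A m →* Multiplicative (ZMod m) :=
    (AddMonoidHom.toMultiplicative (Int.castAddHom (ZMod m))).comp
      (SemidirectProduct.rightHom.comp (GPer A m).subtype)
  have hq : ∀ z : GPer A m, q z = 1 ↔ (m : ℤ) ∣ (z : UU A).right.toAdd := by
    intro z
    have h1 : q z = Multiplicative.ofAdd (((z : UU A).right.toAdd : ℤ) : ZMod m) := rfl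
    rw [h1, ofAdd_eq_one, ZMod.intCast_zmod_eq_zero_iff_dvd]
  have hfi : q.ker.FiniteIndex := inferInstance
  refine hC.finiteIndex _ q.ker hfi ?_
  have hPow : C (Fin m → A) := Pool.Agent.Y812.SS.C_pow hC (Fin m) A hA
  refine hC.of_injective _ _ (MonoidHom.mk' (fun z : q.ker =>
    ((fun i : Fin m => ((z : GPer A m) : UU A).left (i : ℤ)), ((z : GPer A m) : UU A).right)) ?_)
    ?_ (hC.prod _ _ hPow hC.int)
  · intro z w
    refine Prod.ext ?_ rfl
    funext i
    show (((z : GPer A m) : UU A) * ((w : GPer A m) : UU A)).left (i : ℤ) = _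
    rw [uu_mul]
    obtain ⟨j, hj⟩ := (hq z).1 z.2
    have h1 := per_mul (w : GPer A m).2 (i : ℤ) (-j)
    rw [hj, sub_eq_add_neg, ← mul_neg, h1]
    rfl
  · intro z w h
    have h1 : ((z : GPer A m) : UU A).right = ((w : GPer A m) : UU A).right :=
      congrArg Prod.snd h
    have h2 : (fun i : Fin m => ((z : GPer A m) : UU A).left (i : ℤ)) =
        fun i : Fin m => ((w : GPer A m) : UU A).left (i : ℤ) := congrArg Prod.fst h
    apply Subtype.ext
    apply Subtype.ext
    refine SemidirectProduct.ext ?_ h1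
    funext n
    have h3 : n = n % m + m * (n / m) := (Int.emod_add_mul_ediv n m).symm
    have h4 : 0 ≤ n % m := Int.emod_nonneg _ (by omega)
    have h5 : n % m < m := Int.emod_lt_of_pos _ (by omega)
    have h6 := congrFun h2 ⟨(n % m).toNat, by omega⟩
    have h7 : (((n % m).toNat : ℕ) : ℤ) = n % m := Int.toNat_of_nonneg h4
    rw [h3, per_mul (z : GPer A m).2, per_mul (w : GPer A m).2]
    have h8 : ((z : GPer A m) : UU A).left (((n % m).toNat : ℕ) : ℤ) =
      ((w : GPer A m) : UU A).left (((n % m).toNat : ℕ) : ℤ) := h6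
    rwa [h7] at h8

end Defs

section Ends

variable {A : Type} [Group A]

/-- one of the two ends of the integers -/
structure IsEnd (l : Filter ℤ) : Prop where
  tr : ∀ k : ℤ, Tendsto (fun n => n + k) l l
  cof : ∀ (P : ℤ → Prop) (m : ℕ) (n : ℤ), 0 < m → (∀ᶠ k in l, P k) → ∃ j : ℤ, P (n + m * j)

theorem isEnd_top : IsEnd atTop where
  tr k := tendsto_atTop_add_const_right _ k tendsto_id
  cof P m n hm h := by
    obtain ⟨N, hN⟩ := eventually_atTop.1 h
    refine ⟨|N| + |n|, hN _ ?_⟩
    have h1 : (1 : ℤ) ≤ m := by omega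
    have h2 : |N| + |n| ≤ m * (|N| + |n|) := by
      have := abs_nonneg N
      have := abs_nonneg n
      nlinarith
    have := le_abs_self N
    have := neg_abs_le n
    linarith

theorem isEnd_bot : IsEnd atBot where
  tr k := tendsto_atBot_add_const_right _ k tendsto_id
  cof P m n hm h := by
    obtain ⟨N, hN⟩ := eventually_atBot.1 h
    refine ⟨-(|N| + |n|), hN _ ?_⟩
    have h1 : (1 : ℤ) ≤ m := by omega
    have h2 : |N| + |n| ≤ m * (|N| + |n|) := by
      have := abs_nonneg N
      have := abs_nonneg n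
      nlinarith
    have := neg_abs_le N
    have := le_abs_self n
    linarith

variable {l : Filter ℤ} (hl : IsEnd l) {m : ℕ} (hm : 0 < m)

include hl hm in
theorem per_unique {p q : ℤ → A} (hp : p ∈ Per A m) (hq : q ∈ Per A m)
    (h : ∀ᶠ n in l, p n = q n) : p = q := by
  funext n
  obtain ⟨j, hj⟩ := hl.cof _ m n hm h
  rwa [per_mul hp, per_mul hq] at hj

include hl in
theorem ev_shift {P : ℤ → Prop} (h : ∀ᶠ n in l, P n) (k : ℤ) : ∀ᶠ n in l, P (n + k) :=
  (hl.tr k).eventually h

/-- functions which are periodic near the end -/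
def GE (A : Type) [Group A] {l : Filter ℤ} (hl : IsEnd l) (m : ℕ) : Subgroup (UU A) where
  carrier := {z | ∃ p ∈ Per A m, ∀ᶠ n in l, z.left n = p n}
  mul_mem' := by
    rintro z w ⟨p, hp, hzp⟩ ⟨q, hq, hwq⟩
    refine ⟨fun n => p n * q (n - z.right.toAdd), (Per A m).mul_mem hp (per_shift hq _), ?_⟩
    filter_upwards [hzp, ev_shift hl hwq (-z.right.toAdd)] with n h1 h2
    rw [uu_mul, h1, sub_eq_add_neg, h2]
  one_mem' := ⟨1, (Per A m).one_mem, Eventually.of_forall fun _ => rfl⟩
  inv_mem' := by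
    rintro z ⟨p, hp, hzp⟩
    refine ⟨(fun n => p (n - (-z.right.toAdd)))⁻¹, (Per A m).inv_mem (per_shift hp _), ?_⟩
    filter_upwards [ev_shift hl hzp z.right.toAdd] with n h1
    rw [uu_inv, h1, Pi.inv_apply, sub_neg_eq_add]

include hm in
/-- the periodic part near the end -/
theorem exists_end : ∃ R : GE A hl m →* GPer A m, ∀ z : GE A hl m,
    R z = 1 ↔ (z : UU A).right = 1 ∧ ∀ᶠ n in l, (z : UU A).left n = 1 := by
  choose p hp hzp using fun z : GE A hl m => z.2
  refine ⟨MonoidHom.mk' (fun z => ⟨⟨p z, (z : UU A).right⟩, hp z⟩) ?_, ?_⟩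
  · intro z w
    apply Subtype.ext
    refine SemidirectProduct.ext ?_ rfl
    refine per_unique hl hm (hp _) ((Per A m).mul_mem (hp z)
      (per_shift (hp w) (z : UU A).right.toAdd)) ?_
    filter_upwards [hzp (z * w), hzp z, ev_shift hl (hzp w) (-(z : UU A).right.toAdd)]
      with n h1 h2 h3
    rw [← h1]
    show ((z : UU A) * (w : UU A)).left n = p z n * p w (n - (z : UU A).right.toAdd)
    rw [uu_mul, h2, sub_eq_add_neg, h3]
  · intro z
    show (⟨⟨p z, (z : UU A).right⟩, hp z⟩ : GPer A m) = 1 ↔ _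
    rw [Subtype.ext_iff]
    show (⟨p z, (z : UU A).right⟩ : UU A) = 1 ↔ _
    rw [SemidirectProduct.ext_iff]
    show (p z = 1 ∧ (z : UU A).right = 1) ↔ _
    constructor
    · rintro ⟨h1, h2⟩
      refine ⟨h2, ?_⟩
      filter_upwards [hzp z] with n h3
      rw [h3, h1]
      rfl
    · rintro ⟨h1, h2⟩
      refine ⟨?_, h1⟩
      refine per_unique hl hm (hp z) (Per A m).one_mem ?_
      filter_upwards [hzp z, h2] with n h3 h4
      rw [← h3, h4]
      rfl

end Ends

/-- **eventually periodic functions on the integers and translations** -/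
theorem ep_mem (hC : ClosedE C) {A : Type} [Group A] (hA : C A) (m : ℕ) (hm : 0 < m) :
    C ↥(GE A isEnd_top m ⊓ GE A isEnd_bot m) := by
  let S : Subgroup (UU A) := GE A isEnd_top m ⊓ GE A isEnd_bot m
  show C S
  obtain ⟨R1, hR1⟩ := exists_end (A := A) isEnd_top hm
  obtain ⟨R2, hR2⟩ := exists_end (A := A) isEnd_bot hm
  let R : S →* GPer A m × GPer A m :=
    (R1.comp (Subgroup.inclusion inf_le_left)).prod (R2.comp (Subgroup.inclusion inf_le_right))
  have hR : ∀ z : S, R z = 1 ↔ (z : UU A).right = 1 ∧ {n | (z : UU A).left n ≠ 1}.Finite := by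
    intro z
    have h1 : R z = 1 ↔ R1 (Subgroup.inclusion inf_le_left z) = 1 ∧
        R2 (Subgroup.inclusion inf_le_right z) = 1 := Prod.ext_iff
    rw [h1, hR1, hR2]
    show ((z : UU A).right = 1 ∧ ∀ᶠ n in atTop, (z : UU A).left n = 1) ∧
      ((z : UU A).right = 1 ∧ ∀ᶠ n in atBot, (z : UU A).left n = 1) ↔ _
    have h2 : {n | (z : UU A).left n ≠ 1}.Finite ↔
        ∀ᶠ n in (cofinite : Filter ℤ), (z : UU A).left n = 1 := by
      rw [Filter.eventually_cofinite]
    rw [h2, Int.cofinite_eq, eventually_sup]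
    tauto
  let M : Subgroup S := R.ker
  have hM : ∀ z : S, z ∈ M ↔ (z : UU A).right = 1 ∧ {n | (z : UU A).left n ≠ 1}.Finite :=
    fun z => hR z
  have hQ : C (S ⧸ M) := hC.base.of_injective _ _ (QuotientGroup.kerLift R)
    (QuotientGroup.kerLift_injective R)
    (hC.base.prod _ _ (gper_mem hC.base hA m hm) (gper_mem hC.base hA m hm))
  let K : ℤ → Subgroup S := fun x =>
    { carrier := {z | z ∈ M ∧ (z : UU A).left x = 1}
      mul_mem' := by
        rintro z w ⟨hz, hzx⟩ ⟨hw, hwx⟩
        refine ⟨M.mul_mem hz hw, ?_⟩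
        show ((z : UU A) * (w : UU A)).left x = 1
        rw [uu_mul, ((hM z).1 hz).1, toAdd_one, sub_zero, hzx, hwx, one_mul]
      one_mem' := ⟨M.one_mem, rfl⟩
      inv_mem' := by
        rintro z ⟨hz, hzx⟩
        refine ⟨M.inv_mem hz, ?_⟩
        show ((z : UU A)⁻¹).left x = 1
        rw [uu_inv, ((hM z).1 hz).1, toAdd_one, add_zero, hzx, inv_one] }
  have hK : ∀ x (z : S), z ∈ K x ↔ z ∈ M ∧ (z : UU A).left x = 1 := fun _ _ => Iff.rfl
  let tr : Multiplicative ℤ →* Equiv.Perm ℤ :=
    { toFun := fun k => Equiv.addLeft k.toAdd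
      map_one' := by ext n; simp
      map_mul' := fun a b => by ext n; simp }
  let a : S →* Equiv.Perm ℤ := tr.comp (SemidirectProduct.rightHom.comp S.subtype)
  have ha : ∀ (z : S) (x : ℤ), a z x = (z : UU A).right.toAdd + x := fun _ _ => rfl
  refine sum_mem hC S ℤ a M K hQ ?_ ?_ ?_ ?_
  · rintro g x k ⟨hk, hkx⟩
    refine ⟨Subgroup.Normal.conj_mem inferInstance k hk g, ?_⟩
    rw [ha]
    show ((g : UU A) * (k : UU A) * (g : UU A)⁻¹).left _ = 1
    rw [uu_mul, uu_mul, uu_inv]
    have h1 : ((g : UU A) * (k : UU A)).right = (g : UU A).right := by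
      rw [SemidirectProduct.mul_right, ((hM k).1 hk).1, mul_one]
    rw [h1]
    simp [hkx, add_comm x]
  · intro z hz
    refine ((hM z).1 hz).2.subset ?_
    intro x hx hne
    exact hx ⟨hz, hne⟩
  · intro z hz h
    apply Subtype.ext
    refine SemidirectProduct.ext ?_ ((hM z).1 hz).1
    funext n
    exact (h n).2
  · intro x g hg
    have hg1 : (g : UU A).right = 1 := by
      rw [ha, add_eq_right] at hg
      exact hg
    have hle : M ⊔ Subgroup.zpowers g ≤ (SemidirectProduct.rightHom.comp S.subtype).ker := by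
      rw [sup_le_iff, Subgroup.zpowers_le]
      exact ⟨fun z hz => ((hM z).1 hz).1, hg1⟩
    refine ⟨(S ⧸ M) × A, inferInstance, MonoidHom.mk' (fun z =>
      (QuotientGroup.mk' M (z : S), ((z : S) : UU A).left x)) ?_, hC.base.prod _ _ hQ hA, ?_⟩
    · intro z w
      refine Prod.ext (map_mul (QuotientGroup.mk' M) _ _) ?_
      show (((z : S) : UU A) * ((w : S) : UU A)).left x = _
      have hz : ((z : S) : UU A).right = 1 := hle z.2
      rw [uu_mul, hz, toAdd_one, sub_zero]
      rfl
    · intro z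
      show ((QuotientGroup.mk' M (z : S), ((z : S) : UU A).left x) : (S ⧸ M) × A) = 1 ↔ _
      rw [Prod.ext_iff, hK]
      exact and_congr (QuotientGroup.eq_one_iff _) Iff.rfl

end Q9.FJT
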